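import Pool.Agent.H26.GC.Law

/-!
A detour of given shape around a block of `w × h` cells, below a horizontal edge.
-/

set_option autoImplicit false

namespace Pool.Agent.H26.FA

/-- the detour: down `h + 1` steps, right `w` steps, up `h` steps, left `w - 1` steps, up -/
def q (h w : ℕ) (j : ℕ) : ℤ × ℤ :=
  if j ≤ h + 1 then (0, -(j : ℤ)) else
  if j ≤ h + 1 + w then ((j : ℤ) - h - 1, -(h : ℤ) - 1) else
  if j ≤ 2 * h + 1 + w then ((w : ℤ), (j : ℤ) - 2 * h - 2 - w) else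
  if j ≤ 2 * h + 2 * w then (2 * w + 2 * h + 1 - (j : ℤ), -1) else (1, 0)

theorem q_zero (h w : ℕ) : q h w 0 = (0, 0) := by
  unfold q
  rw [if_pos (by omega)]
  simp

theorem q_last {h w : ℕ} (hh : 1 ≤ h) (hw : 1 ≤ w) : q h w (2 * h + 2 * w + 1) = (1, 0) := by
  unfold q
  rw [if_neg (by omega), if_neg (by omega), if_neg (by omega), if_neg (by omega)]

theorem q_neg {h w j : ℕ} (h0 : 0 < j) (h1 : j < 2 * h + 2 * w + 1) : (q h w j).2 < 0 := by
  unfold q
  split_ifs <;> simp only <;> omega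

theorem q_le {h w : ℕ} (j : ℕ) : (q h w j).2 ≤ 0 := by
  unfold q
  split_ifs <;> simp only <;> omega

theorem q_step {h w j : ℕ} (hh : 1 ≤ h) (hw : 1 ≤ w) (h1 : j < 2 * h + 2 * w + 1) :
    ((q h w (j + 1)).1 = (q h w j).1 ∧ ((q h w (j + 1)).2 = (q h w j).2 + 1 ∨
      (q h w (j + 1)).2 = (q h w j).2 - 1)) ∨
    ((q h w (j + 1)).2 = (q h w j).2 ∧ ((q h w (j + 1)).1 = (q h w j).1 + 1 ∨
      (q h w (j + 1)).1 = (q h w j).1 - 1)) := by
  unfold q
  split_ifs <;> simp <;> omega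

theorem q_inj {h w i j : ℕ} (hh : 1 ≤ h) (hw : 1 ≤ w) (hi : i ≤ 2 * h + 2 * w + 1)
    (hj : j ≤ 2 * h + 2 * w + 1) (h1 : q h w i = q h w j) : i = j := by
  have e1 := congrArg Prod.fst h1
  have e2 := congrArg Prod.snd h1
  unfold q at e1 e2
  split_ifs at e1 e2 <;> simp only at e1 e2 <;> omega

theorem cr_q {h w j : ℕ} (hh : 1 ≤ h) (hw : 1 ≤ w) (h1 : j < 2 * h + 2 * w + 1) (a b : ℤ) :
    ((((q h w j).1 = a ∧ (q h w (j + 1)).1 = a + 1) ∨
      ((q h w j).1 = a + 1 ∧ (q h w (j + 1)).1 = a)) ∧ b < (q h w j).2) ↔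
    (((j : ℤ) = h + 1 + a ∧ (0 ≤ a ∧ a < w ∧ b < -(h : ℤ) - 1)) ∨
      ((j : ℤ) = 2 * w + 2 * h - a ∧ (1 ≤ a ∧ a < w ∧ b < -1))) := by
  unfold q
  split_ifs <;> simp only <;> push_cast <;> omega

theorem sum_one {N : ℕ} {J : ℤ} {P : Prop} [Decidable P] (h : P → 0 ≤ J ∧ J < N) :
    ∑ j ∈ Finset.range N, (if (j : ℤ) = J ∧ P then (1 : ZMod 2) else 0) = if P then 1 else 0 := by
  by_cases hP : P
  · obtain ⟨h1, h2⟩ := h hP
    obtain ⟨k, rfl⟩ := Int.eq_ofNat_of_zero_le h1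
    rw [Finset.sum_eq_single k]
    · rw [if_pos ⟨rfl, hP⟩, if_pos hP]
    · intro b _ hb
      rw [if_neg]
      rintro ⟨h3, -⟩
      exact hb (by exact_mod_cast h3)
    · intro hk
      exfalso
      apply hk
      rw [Finset.mem_range]
      exact_mod_cast h2
  · rw [if_neg hP]
    apply Finset.sum_eq_zero
    intro j _
    rw [if_neg]
    rintro ⟨-, h3⟩
    exact hP h3

open Classical in
/-- the parity of the crossings of the detour -/
theorem q_sum {h w : ℕ} (hh : 1 ≤ h) (hw : 1 ≤ w) (a b : ℤ) :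
    ∑ j ∈ Finset.range (2 * h + 2 * w + 1),
      (if (((q h w j).1 = a ∧ (q h w (j + 1)).1 = a + 1) ∨
      ((q h w j).1 = a + 1 ∧ (q h w (j + 1)).1 = a)) ∧ b < (q h w j).2 then (1 : ZMod 2) else 0) =
    (if (0 ≤ a ∧ a < w ∧ b < -(h : ℤ) - 1) then 1 else 0) +
      (if (1 ≤ a ∧ a < w ∧ b < -1) then 1 else 0) := by
  have h1 : ∀ j ∈ Finset.range (2 * h + 2 * w + 1),
      (if (((q h w j).1 = a ∧ (q h w (j + 1)).1 = a + 1) ∨
      ((q h w j).1 = a + 1 ∧ (q h w (j + 1)).1 = a)) ∧ b < (q h w j).2 then (1 : ZMod 2) else 0) =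
      (if (j : ℤ) = h + 1 + a ∧ (0 ≤ a ∧ a < w ∧ b < -(h : ℤ) - 1) then 1 else 0) +
      (if (j : ℤ) = 2 * w + 2 * h - a ∧ (1 ≤ a ∧ a < w ∧ b < -1) then 1 else 0) := by
    intro j hj
    rw [Finset.mem_range] at hj
    have h2 := cr_q hh hw hj a b
    by_cases h3 : (j : ℤ) = h + 1 + a ∧ (0 ≤ a ∧ a < w ∧ b < -(h : ℤ) - 1)
    · rw [if_pos (h2.2 (Or.inl h3)), if_pos h3, if_neg, add_zero]
      rintro ⟨h4, h5⟩
      omega
    · by_cases h4 : (j : ℤ) = 2 * w + 2 * h - a ∧ (1 ≤ a ∧ a < w ∧ b < -1)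
      · rw [if_pos (h2.2 (Or.inr h4)), if_neg h3, if_pos h4, zero_add]
      · rw [if_neg, if_neg h3, if_neg h4, add_zero]
        intro h5
        rcases h2.1 h5 with h6 | h6
        · exact h3 h6
        · exact h4 h6
  rw [Finset.sum_congr rfl h1, Finset.sum_add_distrib, sum_one (by omega), sum_one (by omega)]

/-- the cells of the block and of its neck -/
noncomputable def Bk (h w : ℕ) : Finset (ℤ × ℤ) :=
  ({0} ×ˢ Finset.Ico (-(h : ℤ) - 1) 0) ∪ (Finset.Ico 1 (w : ℤ) ×ˢ Finset.Ico (-(h : ℤ) - 1) (-1))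

theorem Bk_card {h w : ℕ} (hw : 1 ≤ w) : (Bk h w).card = w * h + 1 := by
  unfold Bk
  rw [Finset.card_union_of_disjoint]
  · rw [Finset.card_product, Finset.card_product, Finset.card_singleton, Int.card_Ico,
      Int.card_Ico, Int.card_Ico]
    obtain ⟨v, rfl⟩ : ∃ v, w = v + 1 := ⟨w - 1, by omega⟩
    have e1 : (0 - (-(h : ℤ) - 1)).toNat = h + 1 := by omega
    have e2 : (((v + 1 : ℕ) : ℤ) - 1).toNat = v := by omega
    have e3 : (-1 - (-(h : ℤ) - 1)).toNat = h := by omega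
    rw [e1, e2, e3]
    ring
  · rw [Finset.disjoint_left]
    rintro ⟨a, b⟩ h1 h2
    rw [Finset.mem_product, Finset.mem_singleton] at h1
    rw [Finset.mem_product, Finset.mem_Ico] at h2
    have e1 := h1.1
    have e2 := h2.1.1
    simp only at e1 e2
    omega

theorem mem_Bk {h w : ℕ} (hw : 1 ≤ w) (a b : ℤ) : (a, b) ∈ Bk h w ↔
    (b < 0 ∧ (if (0 ≤ a ∧ a < w ∧ b < -(h : ℤ) - 1) then (1 : ZMod 2) else 0) +
      (if (1 ≤ a ∧ a < w ∧ b < -1) then 1 else 0) +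
      (if a = 0 ∧ b < 0 then 1 else 0) = 1) := by
  unfold Bk
  rw [Finset.mem_union, Finset.mem_product, Finset.mem_product, Finset.mem_singleton,
    Finset.mem_Ico, Finset.mem_Ico, Finset.mem_Ico]
  simp only
  split_ifs with h1 h2 h3 h2 h3 h3 h3 <;> constructor <;>
    first
      | (intro h4
         refine ⟨by omega, ?_⟩
         first
           | decide
           | (exfalso; omega))
      | (rintro ⟨h4, h5⟩
         first
           | (exfalso; revert h5; decide)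
           | omega)

end Pool.Agent.H26.FA
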