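import Pool.Agent.H26.FA.Root

/-!
Polygons with a given area weighted by a fugacity: lower bound.
-/

set_option autoImplicit false

open MeasureTheory Set Filter Topology Metric
open scoped ENNReal Pointwise

namespace Pool.Agent.H26.FA

open Pool.Agent.Y981.L2 H981 Pool.Agent.H26.UN Pool.Agent.H26.GC
open Pool.Agent.H26.WF (Kc V g rho pr RR)

/-- the fugacity at the energy `E` -/
noncomputable def zz (E : ℝ) : ℝ := Real.exp (-E) / mu

theorem zz_pos (E : ℝ) : 0 < zz E := by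
  have := mu_pos
  unfold zz
  positivity

theorem zz_log (E : ℝ) : -Real.log (zz E * mu) = E := by
  unfold zz
  rw [div_mul_cancel₀ _ mu_pos.ne', Real.log_exp, neg_neg]

theorem zz_pow (E : ℝ) (k : ℕ) : zz E ^ k = Real.exp (-(k * (E + Real.log mu))) := by
  have h : zz E = Real.exp (-(E + Real.log mu)) := by
    unfold zz
    rw [neg_add, Real.exp_add, Real.exp_neg (Real.log mu), Real.exp_log mu_pos, div_eq_mul_inv]
  rw [h, ← Real.exp_nat_mul]
  congr 1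
  ring

theorem poly_bd {t : ℝ} (ht : 0 < t) (N : ℕ) :
    (4 * (N : ℝ)) ^ 3 * Real.exp (-(2 * t * N)) ≤ 48 / t ^ 3 := by
  have h1 := Real.pow_div_factorial_le_exp (x := 2 * t * N) (by positivity) 3
  norm_num [Nat.factorial] at h1
  rw [Real.exp_neg, ← div_eq_mul_inv, div_le_div_iff₀ (Real.exp_pos _) (by positivity)]
  have e : (4 * (N : ℝ)) ^ 3 * t ^ 3 = 48 * ((2 * t * N) ^ 3 / 6) := by ring
  rw [e]
  exact mul_le_mul_of_nonneg_left h1 (by norm_num)

/-- the effect of an increment of the area -/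
theorem tm_shift {E t : ℝ} (ht : 0 < t) {b l A : ℕ}
    (hl : ∀ n A : ℕ, 2 ≤ n →
      (PQ (Ea A) n).ncard ≤ (4 * (n + l)) ^ 2 * (PQ (Ea (A + b)) (n + l)).ncard) (k : ℕ) :
    GC.tm (zz (E + t)) (Ea A) k ≤ Real.exp (2 * l * (E + t + Real.log mu)) * (48 / t ^ 3) *
      GC.tm (zz E) (Ea (A + b)) (k + l) := by
  have h1 := hl (k + 2) A (by omega)
  have h2 : ((PQ (Ea A) (k + 2)).ncard : ℝ) ≤
      (4 * ((k + 2 + l : ℕ) : ℝ)) ^ 2 * ((PQ (Ea (A + b)) (k + 2 + l)).ncard : ℝ) := by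
    exact_mod_cast h1
  unfold GC.tm
  have e1 : k + l + 2 = k + 2 + l := by ring
  rw [e1]
  obtain ⟨N, hN⟩ : ∃ N, N = k + 2 + l := ⟨_, rfl⟩
  rw [← hN] at h2 ⊢
  have hN0 : (0 : ℝ) < N := by
    have : 0 < N := by omega
    exact_mod_cast this
  obtain ⟨P, hP⟩ : ∃ P : ℝ, P = ((PQ (Ea (A + b)) N).ncard : ℝ) := ⟨_, rfl⟩
  rw [← hP] at h2 ⊢
  have hP0 : 0 ≤ P := by rw [hP]; positivity
  have h3 := poly_bd ht N
  rw [zz_pow, zz_pow]
  have e2 : Real.exp (-(((2 * (k + 2) : ℕ) : ℝ) * (E + t + Real.log mu))) =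
      Real.exp (2 * l * (E + t + Real.log mu)) * (Real.exp (-(2 * t * N)) *
        Real.exp (-(((2 * N : ℕ) : ℝ) * (E + Real.log mu)))) := by
    rw [← Real.exp_add, ← Real.exp_add, hN]
    congr 1
    push_cast
    ring
  rw [e2]
  obtain ⟨X1, hX1⟩ : ∃ X1, X1 = Real.exp (2 * l * (E + t + Real.log mu)) := ⟨_, rfl⟩
  obtain ⟨X2, hX2⟩ : ∃ X2, X2 = Real.exp (-(2 * t * N)) := ⟨_, rfl⟩
  obtain ⟨X3, hX3⟩ : ∃ X3, X3 = Real.exp (-(((2 * N : ℕ) : ℝ) * (E + Real.log mu))) := ⟨_, rfl⟩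
  have p1 : 0 < X1 := by rw [hX1]; exact Real.exp_pos _
  have p2 : 0 < X2 := by rw [hX2]; exact Real.exp_pos _
  have p3 : 0 < X3 := by rw [hX3]; exact Real.exp_pos _
  rw [← hX2] at h3
  rw [← hX1, ← hX2, ← hX3]
  have h4 : X1 * (X2 * X3) * ((PQ (Ea A) (k + 2)).ncard : ℝ) / (4 * ((k + 2 : ℕ) : ℝ)) ≤
      X1 * (X2 * X3) * ((4 * (N : ℝ)) ^ 2 * P) := by
    refine (div_le_self (by positivity) ?_).trans (mul_le_mul_of_nonneg_left h2 (by positivity))
    push_cast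
    have : (0 : ℝ) ≤ k := Nat.cast_nonneg k
    linarith
  refine h4.trans ?_
  have h5 : X1 * (X2 * X3) * ((4 * (N : ℝ)) ^ 2 * P) =
      X1 * ((4 * (N : ℝ)) ^ 3 * X2) * (X3 * P / (4 * N)) := by
    field_simp
  rw [h5]
  apply mul_le_mul_of_nonneg_right _ (by positivity)
  exact mul_le_mul_of_nonneg_left h3 p1.le

theorem sum_Ar {E : ℝ} (hE : 0 < E) {s : ℝ} (hs : 0 < s) : Summable (GC.tm (zz E) (Ar (s ^ 2))) := by
  obtain ⟨C, hC, h⟩ := Z_up (show (0 : ℝ) < 1 / 2 by norm_num) (by norm_num)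
  exact (h _ (zz_pos E) (by rw [zz_log]; exact hE) s hs).1

theorem sum_Ea {E : ℝ} (hE : 0 < E) {A : ℕ} (hA : 0 < A) : Summable (GC.tm (zz E) (Ea A)) := by
  have hA0 : (0 : ℝ) < A := by exact_mod_cast hA
  have h := sum_Ar hE (Real.sqrt_pos.2 hA0)
  rw [Real.sq_sqrt hA0.le] at h
  exact (GC.sum_of_le (zz_pos E) (fun n hn f hf hq => by
    have hq' : area (2 * n) f = A := hq
    show (A : ℝ) ≤ (area (2 * n) f : ℝ)
    rw [hq']) h).1

theorem Zs_shift {E t : ℝ} (hE : 0 < E) (ht : 0 < t) {b l A : ℕ} (hA : 0 < A)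
    (hl : ∀ n A : ℕ, 2 ≤ n →
      (PQ (Ea A) n).ncard ≤ (4 * (n + l)) ^ 2 * (PQ (Ea (A + b)) (n + l)).ncard) :
    GC.Zs (zz (E + t)) (Ea A) ≤ Real.exp (2 * l * (E + t + Real.log mu)) * (48 / t ^ 3) *
      GC.Zs (zz E) (Ea (A + b)) := by
  have h1 := sum_Ea (show 0 < E + t by linarith) hA
  have h2 := sum_Ea hE (show 0 < A + b by omega)
  have hinj : Function.Injective (fun k : ℕ => k + l) := fun a b h => by
    simp only at h
    omega
  have h3 : Summable (fun k => GC.tm (zz E) (Ea (A + b)) (k + l)) := h2.comp_injective hinj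
  unfold GC.Zs
  refine (h1.tsum_le_tsum (tm_shift (E := E) (A := A) ht hl) (h3.mul_left _)).trans ?_
  rw [tsum_mul_left]
  apply mul_le_mul_of_nonneg_left _ (by positivity)
  exact tsum_comp_le_tsum_of_inj h2 (fun k => GC.tm_nonneg (zz_pos E) _ k) hinj

/-- decomposition of a window of areas -/
theorem In_le_sum {E : ℝ} (hE : 0 < E) {S : Set ℝ} {F : Finset ℕ} (hF : ∀ A : ℕ, (A : ℝ) ∈ S → A ∈ F)
    (hF0 : ∀ A ∈ F, 0 < A) : GC.Zs (zz E) (GC.In S) ≤ ∑ A ∈ F, GC.Zs (zz E) (Ea A) := by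
  classical
  have hz := zz_pos E
  have hs : ∀ A ∈ F, Summable (GC.tm (zz E) (Ea A)) := fun A hA => sum_Ea hE (hF0 A hA)
  have hle : ∀ k, GC.tm (zz E) (GC.In S) k ≤ ∑ A ∈ F, GC.tm (zz E) (Ea A) k := by
    intro k
    unfold GC.tm
    rw [← Finset.sum_div, ← Finset.mul_sum]
    apply div_le_div_of_nonneg_right _ (by positivity)
    apply mul_le_mul_of_nonneg_left _ (pow_pos hz _).le
    have h1 : (PQ_finite (GC.In S) (show 1 ≤ k + 2 by omega)).toFinset ⊆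
        F.biUnion (fun A => (PQ_finite (Ea A) (show 1 ≤ k + 2 by omega)).toFinset) := by
      intro f hf
      rw [Set.Finite.mem_toFinset] at hf
      rw [Finset.mem_biUnion]
      refine ⟨area (2 * (k + 2)) f, hF _ hf.2, ?_⟩
      rw [Set.Finite.mem_toFinset]
      exact ⟨hf.1, rfl⟩
    have h2 := (Finset.card_le_card h1).trans Finset.card_biUnion_le
    rw [← Set.ncard_eq_toFinset_card _ (PQ_finite (GC.In S) (show 1 ≤ k + 2 by omega))] at h2
    have h3 : ∑ A ∈ F, (PQ_finite (Ea A) (show 1 ≤ k + 2 by omega)).toFinset.card =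
        ∑ A ∈ F, (PQ (Ea A) (k + 2)).ncard := by
      apply Finset.sum_congr rfl
      intro A _
      rw [← Set.ncard_eq_toFinset_card _ (PQ_finite (Ea A) (show 1 ≤ k + 2 by omega))]
    rw [h3] at h2
    have h4 : ((PQ (GC.In S) (k + 2)).ncard : ℝ) ≤ ((∑ A ∈ F, (PQ (Ea A) (k + 2)).ncard : ℕ) : ℝ) := by
      exact_mod_cast h2
    rwa [Nat.cast_sum] at h4
  have hsum : Summable (fun k => ∑ A ∈ F, GC.tm (zz E) (Ea A) k) := summable_sum hs
  have h1 : Summable (GC.tm (zz E) (GC.In S)) :=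
    Summable.of_nonneg_of_le (fun k => GC.tm_nonneg hz _ k) hle hsum
  unfold GC.Zs
  refine (h1.tsum_le_tsum hle hsum).trans (le_of_eq ?_)
  exact Summable.tsum_finsetSum hs

theorem g_cont {E ε : ℝ} (hE : 0 < E) (hε : 0 < ε) : ∃ t : ℝ, 0 < t ∧ g (E + t) ≤ g E + ε := by
  have hg := g_pos hE
  refine ⟨E * (ε / g E), by positivity, ?_⟩
  obtain ⟨h, hh⟩ : ∃ h, h = ε / g E := ⟨_, rfl⟩
  have hh0 : 0 < h := by rw [hh]; positivity
  rw [← hh]
  have hE1 : 0 < E + E * h := by positivity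
  have h1 : 0 < 1 / (1 + h) := by positivity
  have h2 : 1 / (1 + h) < 1 := by
    rw [div_lt_one (by linarith)]
    linarith
  have h3 := g_down hE1 (e := 1 - 1 / (1 + h)) (by linarith) (by linarith)
  have e1 : 1 - (1 - 1 / (1 + h)) = 1 / (1 + h) := by ring
  have e2 : 1 / (1 + h) * (E + E * h) = E := by
    field_simp
  rw [e1, e2, div_mul_eq_mul_div, one_mul, div_le_iff₀ (by linarith)] at h3
  have e3 : g E * (1 + h) = g E + ε := by
    rw [hh]
    field_simp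
  rwa [e3] at h3

/-- **the lower bound for the weight of the polygons with a given area** -/
theorem exact_low {E ε : ℝ} (hE : 0 < E) (hε : 0 < ε) : ∀ᶠ n : ℕ in atTop,
    Real.exp (-(2 * (√(n : ℝ) * (g E + ε)))) ≤ GC.Zs (zz E) (Ea n) := by
  obtain ⟨t, ht, hgt⟩ := g_cont hE (show 0 < ε / 4 by linarith)
  have hE1 : 0 < E + t := by linarith
  have hg := g_pos hE
  have hg1 := g_pos hE1
  have hlm := WF.log_mu_nonneg
  obtain ⟨e1, he1⟩ : ∃ e1, e1 = min (1 / 2) (ε / (8 * g (E + t))) := ⟨_, rfl⟩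
  have he10 : 0 < e1 := by rw [he1]; exact lt_min (by norm_num) (by positivity)
  have he11 : e1 < 1 := by rw [he1]; exact lt_of_le_of_lt (min_le_left _ _) (by norm_num)
  have he12 : e1 * g (E + t) ≤ ε / 8 := by
    have h1 : e1 ≤ ε / (8 * g (E + t)) := by rw [he1]; exact min_le_right _ _
    rw [le_div_iff₀ (by positivity)] at h1
    linarith
  obtain ⟨D, hD⟩ : ∃ D, D = E + t + Real.log mu + 1 := ⟨_, rfl⟩
  have hD0 : 0 < D := by rw [hD]; linarith
  -- the width of the window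
  obtain ⟨κ, hκ⟩ : ∃ κ, κ = min (1 / 8) ((ε / (48 * D)) ^ 2) := ⟨_, rfl⟩
  have hκ0 : 0 < κ := by rw [hκ]; exact lt_min (by norm_num) (by positivity)
  have hκ1 : κ ≤ 1 / 8 := by rw [hκ]; exact min_le_left _ _
  have hκ2 : √(2 * κ) * (6 * D) ≤ ε / 4 := by
    have h1 : κ ≤ (ε / (48 * D)) ^ 2 := by rw [hκ]; exact min_le_right _ _
    have h2 : √(2 * κ) ≤ 2 * (ε / (48 * D)) := by
      rw [Real.sqrt_le_left (by positivity)]
      have : 0 ≤ (ε / (48 * D)) ^ 2 := by positivity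
      rw [mul_pow]
      linarith
    have h3 := mul_le_mul_of_nonneg_right h2 (show 0 ≤ 6 * D by positivity)
    have e : 2 * (ε / (48 * D)) * (6 * D) = ε / 4 := by
      field_simp
      norm_num
    rwa [e] at h3
  obtain ⟨C, s₀, hC, hs₀, hwin⟩ := GC.Z_win hκ0 he10 he11
  obtain ⟨B, hB⟩ : ∃ B, B = C * Lm (E + t) ^ 2 + 6 * D + Real.log (48 / t ^ 3) := ⟨_, rfl⟩
  have hloglim : ∀ᶠ n : ℕ in atTop, Real.log (n : ℝ) ≤ ε / 8 * √(n : ℝ) := by
    have h1 := (isLittleO_log_rpow_atTop (show (0 : ℝ) < 1 / 2 by norm_num)).bound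
      (show 0 < ε / 8 by linarith)
    have h2 := tendsto_natCast_atTop_atTop (R := ℝ) |>.eventually h1
    filter_upwards [h2] with n hn
    rw [Real.norm_eq_abs, Real.norm_eq_abs] at hn
    rw [Real.sqrt_eq_rpow]
    refine (le_abs_self _).trans (hn.trans (le_of_eq ?_))
    rw [abs_of_nonneg (by positivity)]
  have hsqrt : Tendsto (fun n : ℕ => √(n : ℝ)) atTop atTop :=
    Real.tendsto_sqrt_atTop.comp tendsto_natCast_atTop_atTop
  have hev1 : ∀ᶠ n : ℕ in atTop, 2 * (|B| / (ε / 8) + s₀ + 1 +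
      C * Lm (E + t) ^ 2 / g (E + t)) ≤ √(n : ℝ) := hsqrt.eventually_ge_atTop _
  have hev2 : ∀ᶠ n : ℕ in atTop, 4 / κ + 8 ≤ (n : ℝ) :=
    tendsto_natCast_atTop_atTop.eventually_ge_atTop _
  filter_upwards [hloglim, hev1, hev2] with n hn1 hn2 hn3
  have hk4 : 0 < 4 / κ := by positivity
  have hn0 : (0 : ℝ) < n := by linarith
  have hsn : 0 < √(n : ℝ) := Real.sqrt_pos.2 hn0
  have hsq : √(n : ℝ) ^ 2 = n := Real.sq_sqrt hn0.le
  have hκn : 4 ≤ κ * n := by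
    have h1 : 4 / κ ≤ (n : ℝ) := by linarith
    rw [div_le_iff₀ hκ0] at h1
    linarith
  -- the scale
  obtain ⟨s, hs⟩ : ∃ s, s = √((1 - 2 * κ) * n) := ⟨_, rfl⟩
  have hs2 : s ^ 2 = (1 - 2 * κ) * n := by
    rw [hs, Real.sq_sqrt]
    exact mul_nonneg (by linarith) hn0.le
  have hss : s ≤ √(n : ℝ) := by
    rw [hs]
    apply Real.sqrt_le_sqrt
    have : 0 ≤ κ * n := by positivity
    linarith
  have hs12 : √(n : ℝ) / 2 ≤ s := by
    rw [hs]
    apply Real.le_sqrt_of_sq_le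
    rw [div_pow, hsq]
    have : κ * n ≤ 1 / 8 * n := mul_le_mul_of_nonneg_right hκ1 hn0.le
    linarith
  have hs0 : 0 < s := by linarith
  have hBa : 0 ≤ |B| / (ε / 8) := by positivity
  have hCg : 0 ≤ C * Lm (E + t) ^ 2 / g (E + t) := by positivity
  have hCgs : C * Lm (E + t) ^ 2 ≤ s * g (E + t) := by
    have h1 : C * Lm (E + t) ^ 2 / g (E + t) ≤ s := by linarith
    rwa [div_le_iff₀ hg1] at h1
  have hw := (hwin _ (zz_pos (E + t)) (by rw [zz_log]; exact hE1) s (by linarith)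
    (by rw [zz_log]; exact hCgs) (Ioo (s ^ 2) ((1 + κ) * s ^ 2)) (fun x hx => hx)
    (fun x hx => hx.1.le)).2
  rw [zz_log] at hw
  -- the areas of the window
  obtain ⟨F, hF⟩ : ∃ F : Finset ℕ, F = (Finset.range n).filter
    (fun A : ℕ => (A : ℝ) ∈ Ioo (s ^ 2) ((1 + κ) * s ^ 2)) := ⟨_, rfl⟩
  have hmem : ∀ A : ℕ, (A : ℝ) ∈ Ioo (s ^ 2) ((1 + κ) * s ^ 2) →
      (1 - 2 * κ) * n < A ∧ (A : ℝ) < (1 - κ) * n := by
    intro A hA
    refine ⟨by rw [← hs2]; exact hA.1, lt_of_lt_of_le hA.2 ?_⟩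
    rw [hs2, ← mul_assoc]
    apply mul_le_mul_of_nonneg_right _ hn0.le
    have : 0 ≤ κ * κ := by positivity
    linarith [show (1 + κ) * (1 - 2 * κ) = 1 - κ - 2 * (κ * κ) by ring]
  have hFmem : ∀ A : ℕ, (A : ℝ) ∈ Ioo (s ^ 2) ((1 + κ) * s ^ 2) → A ∈ F := by
    intro A hA
    rw [hF, Finset.mem_filter, Finset.mem_range]
    refine ⟨?_, hA⟩
    have h1 := (hmem A hA).2
    have h2 : (A : ℝ) < n := by
      have : 0 ≤ κ * n := by positivity
      linarith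
    exact_mod_cast h2
  have hFpos : ∀ A ∈ F, 0 < A := by
    intro A hA
    rw [hF, Finset.mem_filter] at hA
    have h1 : (0 : ℝ) < A := lt_trans (by positivity) hA.2.1
    exact_mod_cast h1
  have h1 := In_le_sum hE1 hFmem hFpos
  obtain ⟨W, hW⟩ : ∃ W, W = Real.exp (6 * (√(2 * κ) * √(n : ℝ) + 1) * D) * (48 / t ^ 3) *
    GC.Zs (zz E) (Ea n) := ⟨_, rfl⟩
  have hZ0 : 0 ≤ GC.Zs (zz E) (Ea n) := tsum_nonneg fun k => GC.tm_nonneg (zz_pos E) _ k
  have h2 : ∀ A ∈ F, GC.Zs (zz (E + t)) (Ea A) ≤ W := by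
    intro A hA
    have hA' := hA
    rw [hF, Finset.mem_filter, Finset.mem_range] at hA
    obtain ⟨a1, a2⟩ := hmem A hA.2
    obtain ⟨b, hb⟩ : ∃ b, n = A + b := ⟨n - A, by omega⟩
    have hbR : (b : ℝ) = n - A := by
      rw [hb]
      push_cast
      ring
    have hb1 : κ * n < b := by rw [hbR]; linarith
    have hb2 : (b : ℝ) < 2 * κ * n := by rw [hbR]; linarith
    have hb4 : 4 ≤ b := by
      have : (4 : ℝ) ≤ b := by linarith
      exact_mod_cast this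
    obtain ⟨l, hl1, hl2⟩ := count_two hb4
    have h3 := Zs_shift hE ht (hFpos A hA') hl2
    rw [← hb] at h3
    refine h3.trans ?_
    rw [hW]
    apply mul_le_mul_of_nonneg_right _ hZ0
    apply mul_le_mul_of_nonneg_right _ (by positivity)
    apply Real.exp_le_exp.2
    have hl3 : (l : ℝ) ≤ 3 * (√(2 * κ) * √(n : ℝ)) + 3 := by
      have c1 : (l : ℝ) ≤ 3 * (Nat.sqrt b : ℝ) + 3 := by exact_mod_cast hl1
      have c2 : (Nat.sqrt b : ℝ) ≤ √(b : ℝ) := by
        apply Real.le_sqrt_of_sq_le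
        have : (Nat.sqrt b) ^ 2 ≤ b := Nat.sqrt_le' b
        exact_mod_cast this
      have c3 : √(b : ℝ) ≤ √(2 * κ) * √(n : ℝ) := by
        rw [← Real.sqrt_mul (by positivity)]
        exact Real.sqrt_le_sqrt hb2.le
      linarith
    have c4 : 2 * (l : ℝ) ≤ 6 * (√(2 * κ) * √(n : ℝ) + 1) := by linarith
    have c5 : E + t + Real.log mu ≤ D := by rw [hD]; linarith
    exact mul_le_mul c4 c5 (by linarith) (by positivity)
  have h3 : GC.Zs (zz (E + t)) (GC.In (Ioo (s ^ 2) ((1 + κ) * s ^ 2))) ≤ n * W := by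
    refine h1.trans ((Finset.sum_le_sum h2).trans ?_)
    rw [Finset.sum_const, nsmul_eq_mul]
    have hW0 : 0 ≤ W := by rw [hW]; positivity
    apply mul_le_mul_of_nonneg_right _ hW0
    have : F.card ≤ n := by
      rw [hF]
      exact (Finset.card_filter_le _ _).trans (le_of_eq (Finset.card_range n))
    exact_mod_cast this
  have h4 := hw.trans h3
  -- the exponents
  have ht3 : 0 < 48 / t ^ 3 := by positivity
  have hexp : (n : ℝ) * W = Real.exp (Real.log n + 6 * (√(2 * κ) * √(n : ℝ) + 1) * D +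
      Real.log (48 / t ^ 3)) * GC.Zs (zz E) (Ea n) := by
    rw [hW, Real.exp_add, Real.exp_add, Real.exp_log hn0, Real.exp_log ht3]
    ring
  rw [hexp] at h4
  have h5 : Real.exp (-(2 * (1 + e1) * (s * g (E + t))) - C * Lm (E + t) ^ 2 -
      (Real.log n + 6 * (√(2 * κ) * √(n : ℝ) + 1) * D + Real.log (48 / t ^ 3))) ≤
      GC.Zs (zz E) (Ea n) := by
    rw [Real.exp_sub _ (Real.log n + _ + _), div_le_iff₀ (Real.exp_pos _), mul_comm (GC.Zs _ _)]
    exact h4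
  refine le_trans (Real.exp_le_exp.2 ?_) h5
  have c1 : s * g (E + t) ≤ √(n : ℝ) * g (E + t) := mul_le_mul_of_nonneg_right hss hg1.le
  have c2 : (1 + e1) * (s * g (E + t)) ≤ √(n : ℝ) * (g E + ε / 4 + ε / 8) := by
    have d1 := mul_le_mul_of_nonneg_left c1 (show 0 ≤ 1 + e1 by linarith)
    have d2 : (1 + e1) * (√(n : ℝ) * g (E + t)) = √(n : ℝ) * (g (E + t) + e1 * g (E + t)) := by ring
    rw [d2] at d1
    refine d1.trans (mul_le_mul_of_nonneg_left ?_ hsn.le)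
    linarith
  have c3 : √(2 * κ) * √(n : ℝ) * (6 * D) ≤ √(n : ℝ) * (ε / 4) := by
    have := mul_le_mul_of_nonneg_left hκ2 hsn.le
    linarith
  have c4 : B ≤ √(n : ℝ) * (ε / 8) := by
    have d1 : |B| / (ε / 8) ≤ √(n : ℝ) := by linarith
    rw [div_le_iff₀ (by linarith)] at d1
    exact (le_abs_self B).trans d1
  rw [hB] at c4
  have c5 : 0 ≤ √(n : ℝ) * ε := by positivity
  linarith

end Pool.Agent.H26.FA
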