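import Pool.Agent.H26.FA.Exact

/-!
Polygons with a given area weighted by a fugacity: the partition function, the shape and the
perimeter.
-/

set_option autoImplicit false

open MeasureTheory Set Filter Topology Metric
open scoped ENNReal Pointwise

namespace Pool.Agent.H26.FA

open Pool.Agent.Y981.L2 H981 Pool.Agent.H26.WS Pool.Agent.H26.UN Pool.Agent.H26.GC
open Pool.Agent.H26.WF (Kc V g rho pr RR)

theorem Ea_le {E : ℝ} (hE : 0 < E) {S : Set ℝ} {n : ℕ} {a : ℝ} (ha : 0 < a) (hS : S ⊆ Ici a)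
    (hn : (n : ℝ) ∈ S) : GC.Zs (zz E) (Ea n) ≤ GC.Zs (zz E) (GC.In S) := by
  have h := sum_Ar hE (Real.sqrt_pos.2 ha)
  rw [Real.sq_sqrt ha.le] at h
  have h1 := (GC.sum_of_le (zz_pos E) (Q := GC.In S) (fun m hm f hf hq => hS hq) h).1
  exact (GC.sum_of_le (zz_pos E) (fun m hm f hf hq => by
    have hq' : area (2 * m) f = n := hq
    show (area (2 * m) f : ℝ) ∈ S
    rw [hq']
    exact hn) h1).2

/-- upper bound for the windows -/
theorem win_up {E ε : ℝ} (hE : 0 < E) (hε : 0 < ε) : ∀ᶠ n : ℕ in atTop, ∀ S : Set ℝ,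
    S ⊆ Ici (n : ℝ) → GC.Zs (zz E) (GC.In S) ≤ Real.exp (-(2 * (√(n : ℝ) * (g E - ε)))) := by
  have hg := g_pos hE
  obtain ⟨e, he⟩ : ∃ e, e = min (1 / 2) (ε / (2 * g E)) := ⟨_, rfl⟩
  have he0 : 0 < e := by rw [he]; exact lt_min (by norm_num) (by positivity)
  have he1 : e < 1 := by rw [he]; exact lt_of_le_of_lt (min_le_left _ _) (by norm_num)
  have he2 : e * g E ≤ ε / 2 := by
    have h1 : e ≤ ε / (2 * g E) := by rw [he]; exact min_le_right _ _
    rw [le_div_iff₀ (by positivity)] at h1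
    linarith
  obtain ⟨C, hC, hup⟩ := GC.Z_up he0 he1
  have hsqrt : Tendsto (fun n : ℕ => √(n : ℝ)) atTop atTop :=
    Real.tendsto_sqrt_atTop.comp tendsto_natCast_atTop_atTop
  filter_upwards [hsqrt.eventually_ge_atTop (C * Lm E ^ 2 / ε), eventually_ge_atTop 1] with n hn hn1
  intro S hS
  have hn0 : (0 : ℝ) < n := by exact_mod_cast hn1
  have hsn : 0 < √(n : ℝ) := Real.sqrt_pos.2 hn0
  obtain ⟨u1, u2⟩ := hup _ (zz_pos E) (by rw [zz_log]; exact hE) _ hsn
  rw [zz_log] at u2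
  rw [Real.sq_sqrt hn0.le] at u1 u2
  have h1 := (GC.sum_of_le (zz_pos E) (Q := GC.In S) (fun m hm f hf hq => hS hq) u1).2
  refine h1.trans (u2.trans (Real.exp_le_exp.2 ?_))
  rw [div_le_iff₀ hε] at hn
  have h2 : √(n : ℝ) * (e * g E) ≤ √(n : ℝ) * (ε / 2) := mul_le_mul_of_nonneg_left he2 hsn.le
  linarith

theorem exact_up {E ε : ℝ} (hE : 0 < E) (hε : 0 < ε) : ∀ᶠ n : ℕ in atTop,
    GC.Zs (zz E) (Ea n) ≤ Real.exp (-(2 * (√(n : ℝ) * (g E - ε)))) := by
  filter_upwards [win_up hE hε, eventually_ge_atTop 1] with n hn hn1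
  have hn0 : (0 : ℝ) < n := by exact_mod_cast hn1
  exact (Ea_le hE hn0 (Subset.refl _) (mem_Ici.2 le_rfl)).trans (hn _ (Subset.refl _))

/-- **the partition function** -/
theorem exact_lim {E : ℝ} (hE : 0 < E) :
    Tendsto (fun n : ℕ => Real.log (GC.Zs (zz E) (Ea n)) / √(n : ℝ)) atTop (𝓝 (-(2 * g E))) := by
  rw [Metric.tendsto_nhds]
  intro ε hε
  filter_upwards [exact_low hE (show 0 < ε / 4 by linarith), exact_up hE (show 0 < ε / 4 by linarith),
    eventually_ge_atTop 1] with n h1 h2 hn1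
  have hn0 : (0 : ℝ) < n := by exact_mod_cast hn1
  have hsn : 0 < √(n : ℝ) := Real.sqrt_pos.2 hn0
  have hZ : 0 < GC.Zs (zz E) (Ea n) := (Real.exp_pos _).trans_le h1
  have h3 := Real.log_le_log (Real.exp_pos _) h1
  have h4 := Real.log_le_log hZ h2
  rw [Real.log_exp] at h3 h4
  rw [Real.dist_eq, abs_lt]
  have e1 : -(2 * (g E + ε / 4)) ≤ Real.log (GC.Zs (zz E) (Ea n)) / √(n : ℝ) := by
    rw [le_div_iff₀ hsn]
    linarith
  have e2 : Real.log (GC.Zs (zz E) (Ea n)) / √(n : ℝ) ≤ -(2 * (g E - ε / 4)) := by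
    rw [div_le_iff₀ hsn]
    linarith
  constructor <;> linarith

/-- **the law of the polygons with a given area** -/
theorem exact_law {E δ h : ℝ} (hE : 0 < E) (hδ : 0 < δ) (h0 : 0 < h) (h1 : h < 1) :
    ∃ c : ℝ, 0 < c ∧ ∀ᶠ n : ℕ in atTop, 0 < GC.Zs (zz E) (Ea n) ∧
      ∀ Q : ∀ m : ℕ, (ZMod (2 * m) → ℤ × ℤ) → Prop,
      (∀ m : ℕ, 2 ≤ m → ∀ f, IsLoop (2 * m) f → Q m f → area (2 * m) f = n ∧
        (FarU m √(n : ℝ) E δ f ∨
          √(n : ℝ) * ((g E - g ((1 - h) * E)) / h + δ * g E) ≤ m * E ∨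
          m * E ≤ √(n : ℝ) * ((g ((1 + h) * E) - g E) / h - δ * g E))) →
      GC.Zs (zz E) Q ≤ Real.exp (-(c * √(n : ℝ))) * GC.Zs (zz E) (Ea n) := by
  obtain ⟨c, C, s₀, hc, hC, hs₀, H⟩ := GC.Z_law (κ := 1) one_pos hδ h0 h1
  have hg := g_pos hE
  have hcg : 0 < c * g E / 8 := by positivity
  refine ⟨c * g E / 4, by positivity, ?_⟩
  have hsqrt : Tendsto (fun n : ℕ => √(n : ℝ)) atTop atTop :=
    Real.tendsto_sqrt_atTop.comp tendsto_natCast_atTop_atTop
  filter_upwards [exact_low hE hcg, win_up hE hcg,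
    hsqrt.eventually_ge_atTop s₀, hsqrt.eventually_ge_atTop (C * Lm E ^ 2 / g E),
    eventually_ge_atTop 1] with n a1 a2 a3 a4 hn1
  have hn0 : (0 : ℝ) < n := by exact_mod_cast hn1
  have hsn : 0 < √(n : ℝ) := Real.sqrt_pos.2 hn0
  have hsq : √(n : ℝ) ^ 2 = n := Real.sq_sqrt hn0.le
  have hZ : 0 < GC.Zs (zz E) (Ea n) := (Real.exp_pos _).trans_le a1
  refine ⟨hZ, ?_⟩
  intro Q hQ
  rw [div_le_iff₀ hg] at a4
  obtain ⟨S, hS⟩ : ∃ S : Set ℝ, S = Ico (n : ℝ) ((1 + 1) * n) := ⟨_, rfl⟩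
  have hnS : (n : ℝ) ∈ S := by
    rw [hS]
    exact ⟨le_rfl, by linarith⟩
  obtain ⟨-, h2⟩ := H _ (zz_pos E) (by rw [zz_log]; exact hE) √(n : ℝ) a3
    (by rw [zz_log]; exact a4) S (by
      rw [hsq, hS]
      exact Ioo_subset_Ico_self) (by
      rw [hsq, hS]
      exact Ico_subset_Ici_self)
  rw [zz_log] at h2
  have h3 := h2 Q (by
    intro m hm f hf hq
    obtain ⟨q1, q2⟩ := hQ m hm f hf hq
    refine ⟨by rw [q1]; exact hnS, ?_⟩
    rcases q2 with q2 | q2 | q2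
    · exact Or.inl q2
    · exact Or.inr (Or.inr (Or.inl q2))
    · exact Or.inr (Or.inr (Or.inr q2)))
  have h4 := a2 S (by rw [hS]; exact Ico_subset_Ici_self)
  refine h3.trans ((mul_le_mul_of_nonneg_left h4 (Real.exp_pos _).le).trans ?_)
  refine le_trans ?_ (mul_le_mul_of_nonneg_left a1 (Real.exp_pos _).le)
  rw [← Real.exp_add, ← Real.exp_add]
  apply Real.exp_le_exp.2
  have : 0 < √(n : ℝ) * (c * g E) := by positivity
  linarith

/-- the sum for the mean half-perimeter -/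
noncomputable def Ms (E : ℝ) (n : ℕ) : ℝ := ∑' k : ℕ, ((k + 2 : ℕ) : ℝ) * GC.tm (zz E) (Ea n) k

theorem tm_exp {E t : ℝ} (n k : ℕ) : GC.tm (zz (E - t)) (Ea n) k =
    Real.exp (2 * t * ((k + 2 : ℕ) : ℝ)) * GC.tm (zz E) (Ea n) k := by
  unfold GC.tm
  rw [zz_pow, zz_pow]
  have e : Real.exp (-(((2 * (k + 2) : ℕ) : ℝ) * (E - t + Real.log mu))) =
      Real.exp (2 * t * ((k + 2 : ℕ) : ℝ)) *
        Real.exp (-(((2 * (k + 2) : ℕ) : ℝ) * (E + Real.log mu))) := by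
    rw [← Real.exp_add]
    congr 1
    push_cast
    ring
  rw [e]
  ring

theorem Ms_sum {E : ℝ} (hE : 0 < E) {n : ℕ} (hn : 0 < n) :
    Summable (fun k : ℕ => ((k + 2 : ℕ) : ℝ) * GC.tm (zz E) (Ea n) k) := by
  have h1 := (sum_Ea (show 0 < E - E / 2 by linarith) hn).mul_left (1 / E)
  refine Summable.of_nonneg_of_le (fun k => mul_nonneg (Nat.cast_nonneg _)
    (GC.tm_nonneg (zz_pos E) _ k)) (fun k => ?_) h1
  rw [tm_exp, ← mul_assoc]
  apply mul_le_mul_of_nonneg_right _ (GC.tm_nonneg (zz_pos E) _ k)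
  have h2 := Real.add_one_le_exp (2 * (E / 2) * ((k + 2 : ℕ) : ℝ))
  rw [one_div, ← div_eq_inv_mul, le_div_iff₀ hE]
  linarith

/-- Jensen's inequality for the mean half-perimeter -/
theorem jensen {E t : ℝ} (hE : 0 < E) (ht : 0 < E - t) {n : ℕ} (hn : 0 < n)
    (hZ : 0 < GC.Zs (zz E) (Ea n)) :
    2 * t * (Ms E n / GC.Zs (zz E) (Ea n)) ≤
      Real.log (GC.Zs (zz (E - t)) (Ea n)) - Real.log (GC.Zs (zz E) (Ea n)) := by
  obtain ⟨Z, hZd⟩ : ∃ Z, Z = GC.Zs (zz E) (Ea n) := ⟨_, rfl⟩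
  obtain ⟨M, hM⟩ : ∃ M, M = Ms E n := ⟨_, rfl⟩
  obtain ⟨a, ha⟩ : ∃ a, a = 2 * t * (M / Z) := ⟨_, rfl⟩
  rw [← hZd] at hZ ⊢
  rw [← hM, ← ha]
  have s0 := sum_Ea hE hn
  have s1 := Ms_sum hE hn
  have s2 := sum_Ea ht hn
  have h1 : Real.exp a * Z ≤ GC.Zs (zz (E - t)) (Ea n) := by
    have h2 : ∀ k, Real.exp a * ((1 - a) * GC.tm (zz E) (Ea n) k +
        2 * t * (((k + 2 : ℕ) : ℝ) * GC.tm (zz E) (Ea n) k)) ≤ GC.tm (zz (E - t)) (Ea n) k := by
      intro k
      rw [tm_exp]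
      have h3 := Real.add_one_le_exp (2 * t * ((k + 2 : ℕ) : ℝ) - a)
      have h4 : Real.exp (2 * t * ((k + 2 : ℕ) : ℝ)) =
          Real.exp a * Real.exp (2 * t * ((k + 2 : ℕ) : ℝ) - a) := by
        rw [← Real.exp_add]
        congr 1
        ring
      rw [h4]
      have h5 := GC.tm_nonneg (zz_pos E) (Ea n) k
      have h6 := mul_le_mul_of_nonneg_right h3 h5
      have h7 := mul_le_mul_of_nonneg_left h6 (Real.exp_pos a).le
      refine le_trans (le_of_eq ?_) (h7.trans (le_of_eq ?_))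
      · ring
      · ring
    have s3 := ((s0.mul_left (1 - a)).add (s1.mul_left (2 * t))).mul_left (Real.exp a)
    have h8 := s3.tsum_le_tsum h2 s2
    rw [tsum_mul_left, (s0.mul_left (1 - a)).tsum_add (s1.mul_left (2 * t)), tsum_mul_left,
      tsum_mul_left] at h8
    have e1 : ∑' k : ℕ, GC.tm (zz E) (Ea n) k = Z := by rw [hZd]; rfl
    have e2 : ∑' k : ℕ, ((k + 2 : ℕ) : ℝ) * GC.tm (zz E) (Ea n) k = M := by rw [hM]; rfl
    rw [e1, e2] at h8
    refine le_trans (le_of_eq ?_) h8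
    have e3 : (1 - a) * Z + 2 * t * M = Z := by
      rw [ha]
      field_simp
      ring
    rw [e3]
  have h2 := Real.log_le_log (mul_pos (Real.exp_pos a) hZ) h1
  rw [Real.log_mul (Real.exp_pos a).ne' hZ.ne', Real.log_exp] at h2
  linarith

/-- **the mean half-perimeter** -/
theorem mean_lim {E D : ℝ} (hE : 0 < E) (hD : HasDerivAt g D E) :
    Tendsto (fun n : ℕ => Ms E n / GC.Zs (zz E) (Ea n) / √(n : ℝ)) atTop (𝓝 D) := by
  have hev : ∀ t : ℝ, 0 < E - t → ∀ η : ℝ, 0 < η → ∀ᶠ n : ℕ in atTop,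
      2 * t * (Ms E n / GC.Zs (zz E) (Ea n) / √(n : ℝ)) ≤ 2 * (g E - g (E - t)) + η := by
    intro t ht η hη
    have l1 := exact_lim ht
    have l2 := exact_lim hE
    have l3 := l1.sub l2
    have l4 : -(2 * g (E - t)) - -(2 * g E) < 2 * (g E - g (E - t)) + η := by linarith
    filter_upwards [l3.eventually_lt_const l4, exact_low hE one_pos, eventually_ge_atTop 1]
      with n h1 h2 hn1
    have hn0 : (0 : ℝ) < n := by exact_mod_cast hn1
    have hsn : 0 < √(n : ℝ) := Real.sqrt_pos.2 hn0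
    have hZ : 0 < GC.Zs (zz E) (Ea n) := (Real.exp_pos _).trans_le h2
    have h3 := jensen hE ht (show 0 < n by omega) hZ
    have h4 := div_le_div_of_nonneg_right h3 hsn.le
    rw [sub_div] at h4
    refine le_trans (le_of_eq ?_) (h4.trans h1.le)
    ring
  have hs := hasDerivAt_iff_tendsto_slope.1 hD
  rw [Metric.tendsto_nhds]
  intro ε hε
  have h1 := (Metric.tendsto_nhds.1 hs) (ε / 4) (by linarith)
  rw [eventually_nhdsWithin_iff, Metric.eventually_nhds_iff] at h1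
  obtain ⟨ρ, hρ, h2⟩ := h1
  obtain ⟨t, ht⟩ : ∃ t, t = min (ρ / 2) (E / 2) := ⟨_, rfl⟩
  have ht0 : 0 < t := by rw [ht]; exact lt_min (by linarith) (by linarith)
  have ht1 : t < ρ := by rw [ht]; exact lt_of_le_of_lt (min_le_left _ _) (by linarith)
  have ht2 : t < E := by rw [ht]; exact lt_of_le_of_lt (min_le_right _ _) (by linarith)
  have a1 := h2 (y := E - t) (by
    rw [Real.dist_eq, sub_sub_cancel_left, abs_neg, abs_of_pos ht0]
    exact ht1) (by
    intro h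
    have : E - t = E := h
    linarith)
  have a2 := h2 (y := E + t) (by
    rw [Real.dist_eq, add_sub_cancel_left, abs_of_pos ht0]
    exact ht1) (by
    intro h
    have : E + t = E := h
    linarith)
  rw [Real.dist_eq, abs_lt, slope_def_field] at a1 a2
  have e1 : (g (E - t) - g E) / (E - t - E) = (g E - g (E - t)) / t := by
    rw [sub_sub_cancel_left, div_neg, ← neg_div, neg_sub]
  have e2 : (g (E + t) - g E) / (E + t - E) = (g (E + t) - g E) / t := by
    rw [add_sub_cancel_left]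
  rw [e1] at a1
  rw [e2] at a2
  have b1 : g E - g (E - t) < (D + ε / 4) * t := by
    have := a1.2
    rw [sub_lt_iff_lt_add, div_lt_iff₀ ht0] at this
    linarith
  have b2 : (D - ε / 4) * t < g (E + t) - g E := by
    have := a2.1
    rw [lt_sub_iff_add_lt, lt_div_iff₀ ht0] at this
    linarith
  have c1 := hev t (by linarith) (ε / 4 * t) (by positivity)
  have c2 := hev (-t) (by linarith) (ε / 4 * t) (by positivity)
  filter_upwards [c1, c2] with n d1 d2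
  rw [sub_neg_eq_add] at d2
  obtain ⟨Y, hY⟩ : ∃ Y, Y = Ms E n / GC.Zs (zz E) (Ea n) / √(n : ℝ) := ⟨_, rfl⟩
  rw [← hY] at d1 d2 ⊢
  rw [Real.dist_eq, abs_lt]
  constructor
  · have : 2 * t * (D - ε / 4 - ε / 8) < 2 * t * Y := by linarith
    have := lt_of_mul_lt_mul_left this (by linarith)
    linarith
  · have : 2 * t * Y < 2 * t * (D + ε / 4 + ε / 8) := by linarith
    have := lt_of_mul_lt_mul_left this (by linarith)
    linarith

/-- **concentration of the half-perimeter and of the shape** -/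
theorem exact_conc {E D δ : ℝ} (hE : 0 < E) (hD : HasDerivAt g D E) (hδ : 0 < δ) :
    ∃ c : ℝ, 0 < c ∧ ∀ᶠ n : ℕ in atTop, 0 < GC.Zs (zz E) (Ea n) ∧
      ∀ Q : ∀ m : ℕ, (ZMod (2 * m) → ℤ × ℤ) → Prop,
      (∀ m : ℕ, 2 ≤ m → ∀ f, IsLoop (2 * m) f → Q m f → area (2 * m) f = n ∧
        δ ≤ |m / √(n : ℝ) - D|) →
      GC.Zs (zz E) Q ≤ Real.exp (-(c * √(n : ℝ))) * GC.Zs (zz E) (Ea n) := by
  have hg := g_pos hE
  have hs := hasDerivAt_iff_tendsto_slope.1 hD
  have h1 := (Metric.tendsto_nhds.1 hs) (δ / 2) (by linarith)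
  rw [eventually_nhdsWithin_iff, Metric.eventually_nhds_iff] at h1
  obtain ⟨ρ, hρ, h2⟩ := h1
  obtain ⟨h, hh⟩ : ∃ h, h = min (ρ / (2 * E)) (1 / 2) := ⟨_, rfl⟩
  have hh0 : 0 < h := by rw [hh]; exact lt_min (by positivity) (by norm_num)
  have hh1 : h < 1 := by rw [hh]; exact lt_of_le_of_lt (min_le_right _ _) (by norm_num)
  have hh2 : h * E < ρ := by
    have h3 : h ≤ ρ / (2 * E) := by rw [hh]; exact min_le_left _ _
    rw [le_div_iff₀ (by positivity)] at h3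
    linarith
  have hhE : 0 < h * E := by positivity
  have a1 := h2 (y := (1 - h) * E) (by
    rw [Real.dist_eq, show (1 - h) * E - E = -(h * E) by ring, abs_neg, abs_of_pos hhE]
    exact hh2) (by
    intro h3
    have : (1 - h) * E = E := h3
    linarith)
  have a2 := h2 (y := (1 + h) * E) (by
    rw [Real.dist_eq, show (1 + h) * E - E = h * E by ring, abs_of_pos hhE]
    exact hh2) (by
    intro h3
    have : (1 + h) * E = E := h3
    linarith)
  rw [Real.dist_eq, abs_lt, slope_def_field] at a1 a2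
  have e1 : (g ((1 - h) * E) - g E) / ((1 - h) * E - E) = (g E - g ((1 - h) * E)) / (h * E) := by
    rw [show (1 - h) * E - E = -(h * E) by ring, div_neg, ← neg_div, neg_sub]
  have e2 : (g ((1 + h) * E) - g E) / ((1 + h) * E - E) = (g ((1 + h) * E) - g E) / (h * E) := by
    rw [show (1 + h) * E - E = h * E by ring]
  rw [e1] at a1
  rw [e2] at a2
  have b1 : (g E - g ((1 - h) * E)) / h < (D + δ / 2) * E := by
    have h3 := a1.2
    rw [sub_lt_iff_lt_add, div_lt_iff₀ hhE] at h3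
    rw [div_lt_iff₀ hh0]
    linarith
  have b2 : (D - δ / 2) * E < (g ((1 + h) * E) - g E) / h := by
    have h3 := a2.1
    rw [lt_sub_iff_add_lt, lt_div_iff₀ hhE] at h3
    rw [lt_div_iff₀ hh0]
    linarith
  obtain ⟨c, hc, H⟩ := exact_law (δ := δ * E / (2 * g E)) hE (by positivity) hh0 hh1
  have e3 : δ * E / (2 * g E) * g E = δ * E / 2 := by
    field_simp
  rw [e3] at H
  refine ⟨c, hc, ?_⟩
  filter_upwards [H, eventually_ge_atTop 1] with n hn hn1
  have hn0 : (0 : ℝ) < n := by exact_mod_cast hn1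
  have hsn : 0 < √(n : ℝ) := Real.sqrt_pos.2 hn0
  refine ⟨hn.1, ?_⟩
  intro Q hQ
  apply hn.2 Q
  intro m hm f hf hq
  obtain ⟨q1, q2⟩ := hQ m hm f hf hq
  refine ⟨q1, ?_⟩
  rcases le_abs.1 q2 with q3 | q3
  · right
    left
    have h3 : (D + δ) * √(n : ℝ) ≤ m := by
      rw [← le_div_iff₀ hsn]
      linarith
    have h4 := mul_le_mul_of_nonneg_right h3 hE.le
    refine le_trans ?_ h4
    have h5 : √(n : ℝ) * ((g E - g ((1 - h) * E)) / h + δ * E / 2) ≤
        √(n : ℝ) * ((D + δ / 2) * E + δ * E / 2) :=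
      mul_le_mul_of_nonneg_left (by linarith) hsn.le
    linarith
  · right
    right
    have h3 : m ≤ (D - δ) * √(n : ℝ) := by
      rw [← div_le_iff₀ hsn]
      linarith
    have h4 := mul_le_mul_of_nonneg_right h3 hE.le
    refine le_trans h4 ?_
    have h5 : √(n : ℝ) * ((D - δ / 2) * E - δ * E / 2) ≤
        √(n : ℝ) * ((g ((1 + h) * E) - g E) / h - δ * E / 2) :=
      mul_le_mul_of_nonneg_left (by linarith) hsn.le
    linarith

end Pool.Agent.H26.FA
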