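import Pool.Agent.H26.FA.Det

/-!
Insertion of a detour into a polygon: the area grows by a given number.
-/

set_option autoImplicit false

open Set

namespace Pool.Agent.H26.FA

open Pool.Agent.Y981.L2 H981

/-- the sites of the new polygon -/
def G (h w : ℕ) {M : ℕ} (F : ZMod M → ℤ × ℤ) (j : ℕ) : ℤ × ℤ :=
  if j ≤ 2 * h + 2 * w + 1 then q h w j else F ((j - (2 * h + 2 * w) : ℕ) : ZMod M)

/-- the new polygon -/
def nf (M' h w : ℕ) {M : ℕ} (F : ZMod M → ℤ × ℤ) : ZMod M' → ℤ × ℤ := fun z => G h w F z.val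

theorem G_lo {h w M : ℕ} {F : ZMod M → ℤ × ℤ} {j : ℕ} (hj : j ≤ 2 * h + 2 * w + 1) :
    G h w F j = q h w j := if_pos hj

theorem G_hi {h w M : ℕ} (hh : 1 ≤ h) (hw : 1 ≤ w) {F : ZMod M → ℤ × ℤ} (h1 : F 1 = (1, 0)) (i : ℕ) :
    G h w F (2 * h + 2 * w + 1 + i) = F ((1 + i : ℕ) : ZMod M) := by
  unfold G
  by_cases hi : i = 0
  · subst hi
    rw [if_pos (by omega), add_zero, add_zero, q_last hh hw, Nat.cast_one, h1]
  · rw [if_neg (by omega)]
    congr 2
    omega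

theorem nf_cast {h w M M' : ℕ} (hM' : M' = M + 2 * h + 2 * w) {F : ZMod M → ℤ × ℤ} {j : ℕ}
    (hj : j < M') : nf M' h w F (j : ZMod M') = G h w F j := by
  unfold nf
  rw [ZMod.val_cast_of_lt hj]

theorem nf_next {h w M M' : ℕ} (hM : 1 ≤ M) (hM' : M' = M + 2 * h + 2 * w) (hh : 1 ≤ h) (hw : 1 ≤ w)
    {F : ZMod M → ℤ × ℤ} (h0 : F 0 = 0) (h1 : F 1 = (1, 0)) {j : ℕ} (hj : j < M') :
    nf M' h w F ((j : ZMod M') + 1) = G h w F (j + 1) := by
  have e : (j : ZMod M') + 1 = ((j + 1 : ℕ) : ZMod M') := by push_cast; rfl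
  rw [e]
  by_cases h2 : j + 1 < M'
  · exact nf_cast hM' h2
  · have h3 : j + 1 = M' := by omega
    rw [h3, ZMod.natCast_self]
    obtain ⟨i, hi⟩ : ∃ i, M' = 2 * h + 2 * w + 1 + i := ⟨M' - (2 * h + 2 * w + 1), by omega⟩
    have h4 : G h w F M' = 0 := by
      rw [hi, G_hi hh hw h1]
      have : 1 + i = M := by omega
      rw [this, ZMod.natCast_self, h0]
    rw [h4]
    unfold nf
    have h5 : (0 : ZMod M').val = 0 := ZMod.val_zero
    rw [h5, G_lo (by omega), q_zero]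
    rfl

theorem cast_inj {M i j : ℕ} (hi : i < M) (hj : j < M) (h : (i : ZMod M) = (j : ZMod M)) : i = j := by
  have h1 := congrArg ZMod.val h
  rwa [ZMod.val_cast_of_lt hi, ZMod.val_cast_of_lt hj] at h1

theorem G_ne {h w M M' : ℕ} (hM' : M' = M + 2 * h + 2 * w) (hM : 2 ≤ M) (hh : 1 ≤ h) (hw : 1 ≤ w)
    {F : ZMod M → ℤ × ℤ} (hF : IsLoop M F) (h1 : F 1 = (1, 0)) (hp : ∀ k, 0 ≤ (F k).2)
    {i j : ℕ} (hij : i < j) (hj : j < M') : G h w F i ≠ G h w F j := by
  intro he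
  rcases le_or_gt j (2 * h + 2 * w + 1) with hj1 | hj1
  · rw [G_lo (by omega), G_lo hj1] at he
    have := q_inj hh hw (by omega) hj1 he
    omega
  · obtain ⟨j', hj'⟩ : ∃ j', j = 2 * h + 2 * w + 1 + j' := ⟨j - (2 * h + 2 * w + 1), by omega⟩
    rw [hj', G_hi hh hw h1] at he
    rcases le_or_gt (2 * h + 2 * w + 1) i with hi1 | hi1
    · obtain ⟨i', hi'⟩ : ∃ i', i = 2 * h + 2 * w + 1 + i' := ⟨i - (2 * h + 2 * w + 1), by omega⟩
      rw [hi', G_hi hh hw h1] at he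
      have := cast_inj (by omega) (by omega) (hF.2.1 he)
      omega
    · rw [G_lo hi1.le] at he
      rcases Nat.eq_zero_or_pos i with hi0 | hi0
      · rw [hi0, q_zero] at he
        have h3 : F ((0 : ℕ) : ZMod M) = F ((1 + j' : ℕ) : ZMod M) := by
          rw [Nat.cast_zero, hF.1]
          exact he
        have := cast_inj (by omega) (by omega) (hF.2.1 h3)
        omega
      · have h3 := q_neg (h := h) (w := w) hi0 hi1
        rw [he] at h3
        have := hp ((1 + j' : ℕ) : ZMod M)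
        omega

theorem step_abs {p r : ℤ × ℤ} (h : (r.1 = p.1 ∧ (r.2 = p.2 + 1 ∨ r.2 = p.2 - 1)) ∨
    (r.2 = p.2 ∧ (r.1 = p.1 + 1 ∨ r.1 = p.1 - 1))) : |r.1 - p.1| + |r.2 - p.2| = 1 := by
  rcases h with ⟨h1, h2 | h2⟩ | ⟨h1, h2 | h2⟩ <;> rw [h1, h2] <;> norm_num

theorem nf_loop {h w M M' : ℕ} (hM' : M' = M + 2 * h + 2 * w) (hM : 2 ≤ M) (hh : 1 ≤ h) (hw : 1 ≤ w)
    {F : ZMod M → ℤ × ℤ} (hF : IsLoop M F) (h1 : F 1 = (1, 0)) (hp : ∀ k, 0 ≤ (F k).2) :
    IsLoop M' (nf M' h w F) := by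
  have : NeZero M' := ⟨by omega⟩
  refine ⟨?_, ?_, ?_⟩
  · have h5 : (0 : ZMod M').val = 0 := ZMod.val_zero
    unfold nf
    rw [h5, G_lo (by omega), q_zero]
    rfl
  · intro y z hyz
    have hy := ZMod.val_lt y
    have hz := ZMod.val_lt z
    have he : G h w F y.val = G h w F z.val := hyz
    rcases lt_trichotomy y.val z.val with h2 | h2 | h2
    · exact absurd he (G_ne hM' hM hh hw hF h1 hp h2 hz)
    · exact ZMod.val_injective M' h2
    · exact absurd he.symm (G_ne hM' hM hh hw hF h1 hp h2 hy)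
  · intro z
    obtain ⟨j, hj, rfl⟩ : ∃ j : ℕ, j < M' ∧ (j : ZMod M') = z :=
      ⟨z.val, ZMod.val_lt z, by rw [ZMod.natCast_val, ZMod.cast_id', id]⟩
    rw [nf_next (by omega) hM' hh hw hF.1 h1 hj, nf_cast hM' hj]
    rcases lt_or_ge j (2 * h + 2 * w + 1) with h2 | h2
    · rw [G_lo (by omega), G_lo h2.le]
      exact step_abs (q_step hh hw h2)
    · obtain ⟨i, rfl⟩ : ∃ i, j = 2 * h + 2 * w + 1 + i := ⟨j - (2 * h + 2 * w + 1), by omega⟩
      rw [add_assoc (2 * h + 2 * w + 1), G_hi hh hw h1, G_hi hh hw h1]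
      have h3 := hF.2.2 ((1 + i : ℕ) : ZMod M)
      have e : ((1 + i : ℕ) : ZMod M) + 1 = ((1 + (i + 1) : ℕ) : ZMod M) := by push_cast; ring
      rw [e] at h3
      exact h3

/-- crossing of the column `c.1` above `c` -/
def Xs (p r : ℤ × ℤ) (a b : ℤ) : Prop :=
  ((p.1 = a ∧ r.1 = a + 1) ∨ (p.1 = a + 1 ∧ r.1 = a)) ∧ b < p.2

open Classical in
theorem odd_iff {M : ℕ} [NeZero M] {f : ZMod M → ℤ × ℤ} {u : ℕ → ℤ × ℤ}
    (h1 : ∀ j < M, f (j : ZMod M) = u j) (h2 : ∀ j < M, f ((j : ZMod M) + 1) = u (j + 1))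
    (c : ℤ × ℤ) : Encl M f c ↔
    ∑ j ∈ Finset.range M, (if Xs (u j) (u (j + 1)) c.1 c.2 then (1 : ZMod 2) else 0) = 1 := by
  unfold Encl
  rw [Nat.card_eq_fintype_card, Fintype.card_subtype, ← ZMod.natCast_eq_one_iff_odd,
    Finset.card_filter, Nat.cast_sum]
  have e : ∑ k : ZMod M, ((if Above M f c.1 c.2 k then 1 else 0 : ℕ) : ZMod 2) =
      ∑ j ∈ Finset.range M, (if Xs (u j) (u (j + 1)) c.1 c.2 then (1 : ZMod 2) else 0) := by
    apply Finset.sum_bij (fun (k : ZMod M) _ => k.val)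
    · intro k _
      rw [Finset.mem_range]
      exact ZMod.val_lt k
    · intro k _ l _ h
      exact ZMod.val_injective M h
    · intro j hj
      rw [Finset.mem_range] at hj
      exact ⟨(j : ZMod M), Finset.mem_univ _, ZMod.val_cast_of_lt hj⟩
    · intro k _
      have hk := ZMod.val_lt k
      have e0 : ((k.val : ℕ) : ZMod M) = k := by rw [ZMod.natCast_val, ZMod.cast_id', id]
      have e1 := h1 k.val hk
      have e2 := h2 k.val hk
      rw [e0] at e1 e2
      rw [← e1, ← e2]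
      have e3 : Above M f c.1 c.2 k ↔ Xs (f k) (f (k + 1)) c.1 c.2 := Iff.rfl
      by_cases h3 : Above M f c.1 c.2 k
      · rw [if_pos h3, if_pos (e3.1 h3), Nat.cast_one]
      · rw [if_neg h3, if_neg (fun h4 => h3 (e3.2 h4)), Nat.cast_zero]
  rw [e]

theorem nf_area {h w M M' : ℕ} (hM' : M' = M + 2 * h + 2 * w) (hM : 2 ≤ M) (hh : 1 ≤ h) (hw : 1 ≤ w)
    {F : ZMod M → ℤ × ℤ} (hF : IsLoop M F) (h1 : F 1 = (1, 0)) (hp : ∀ k, 0 ≤ (F k).2) :
    area M' (nf M' h w F) = area M F + (w * h + 1) := by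
  classical
  have : NeZero M := ⟨by omega⟩
  have : NeZero M' := ⟨by omega⟩
  have hL := nf_loop hM' hM hh hw hF h1 hp
  have key : {c : ℤ × ℤ | Encl M' (nf M' h w F) c} = {c : ℤ × ℤ | Encl M F c} ∪ ↑(Bk h w) := by
    ext ⟨a, b⟩
    rw [mem_union, mem_ofPred_eq, mem_ofPred_eq, Finset.mem_coe,
      odd_iff (u := G h w F) (fun j hj => nf_cast hM' hj)
        (fun j hj => nf_next (by omega) hM' hh hw hF.1 h1 hj)]
    have hE := odd_iff (f := F) (u := fun j : ℕ => F (j : ZMod M)) (fun j _ => rfl)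
      (fun j _ => by push_cast; rfl) (a, b)
    have hE' := hE
    rw [hE]
    simp only at hE ⊢
    obtain ⟨m, hm⟩ : ∃ m, M = 1 + m := ⟨M - 1, by omega⟩
    have hm' : M' = 2 * h + 2 * w + 1 + m := by omega
    obtain ⟨T, hT⟩ : ∃ T : ZMod 2, T = ∑ i ∈ Finset.range m,
      (if Xs (F ((1 + i : ℕ) : ZMod M)) (F ((1 + i + 1 : ℕ) : ZMod M)) a b then (1 : ZMod 2) else 0) :=
      ⟨_, rfl⟩
    have hS' : ∑ j ∈ Finset.range M', (if Xs (G h w F j) (G h w F (j + 1)) a b then (1 : ZMod 2)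
        else 0) = ((if (0 ≤ a ∧ a < w ∧ b < -(h : ℤ) - 1) then 1 else 0) +
      (if (1 ≤ a ∧ a < w ∧ b < -1) then 1 else 0)) + T := by
      rw [hm', Finset.sum_range_add, ← q_sum hh hw, hT]
      congr 1
      · apply Finset.sum_congr rfl
        intro j hj
        rw [Finset.mem_range] at hj
        rw [G_lo (by omega), G_lo (by omega)]
        exact if_congr Iff.rfl rfl rfl
      · apply Finset.sum_congr rfl
        intro i _
        rw [add_assoc (2 * h + 2 * w + 1), G_hi hh hw h1, G_hi hh hw h1, add_assoc]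
    have hS : ∑ j ∈ Finset.range M, (if Xs (F (j : ZMod M)) (F ((j + 1 : ℕ) : ZMod M)) a b
        then (1 : ZMod 2) else 0) = (if a = 0 ∧ b < 0 then 1 else 0) + T := by
      have e0 : Finset.range M = Finset.range (1 + m) := by rw [← hm]
      rw [e0, Finset.sum_range_add, Finset.sum_range_one, hT]
      congr 1
      have e1 : Xs (F ((0 : ℕ) : ZMod M)) (F ((0 + 1 : ℕ) : ZMod M)) a b ↔ a = 0 ∧ b < 0 := by
        rw [zero_add, Nat.cast_zero, Nat.cast_one, hF.1, h1]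
        unfold Xs
        simp only [Prod.fst_zero, Prod.snd_zero]
        omega
      by_cases h2 : a = 0 ∧ b < 0
      · rw [if_pos (e1.2 h2), if_pos h2]
      · rw [if_neg (fun h3 => h2 (e1.1 h3)), if_neg h2]
    rw [hS', hS, mem_Bk hw]
    rw [hS] at hE'
    rcases le_or_gt 0 b with hb | hb
    · rw [if_neg (by omega), if_neg (by omega), if_neg (by omega), zero_add, zero_add]
      constructor
      · intro h2
        exact Or.inl h2
      · rintro (h2 | h2)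
        · exact h2
        · omega
    · have hno : ¬Encl M F (a, b) := by
        intro hc
        obtain ⟨i1, g1⟩ := Finite.exists_max (fun k : ZMod M => (F k).1)
        obtain ⟨i2, g2⟩ := Finite.exists_max (fun k : ZMod M => (F k).2)
        obtain ⟨j1, g3⟩ := Finite.exists_min (fun k : ZMod M => (F k).1)
        have := encl_box hF.2.2 (fun i => ⟨g3 i, g1 i⟩) (fun i => ⟨hp i, g2 i⟩) hc
        have := this.2.1
        simp only at this
        omega
      have hS0 : ¬((if a = 0 ∧ b < 0 then (1 : ZMod 2) else 0) + T = 1) := fun h2 =>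
        hno (hE'.2 h2)
      have hTT : (if a = 0 ∧ b < 0 then (1 : ZMod 2) else 0) = T := by
        have : ∀ x y : ZMod 2, ¬(x + y = 1) → x = y := by decide
        exact this _ _ hS0
      constructor
      · intro h2
        right
        refine ⟨hb, ?_⟩
        rw [hTT]
        exact h2
      · rintro (h2 | ⟨-, h2⟩)
        · exact absurd h2 hS0
        · rw [hTT] at h2
          exact h2
  unfold area
  have e1 : Nat.card {c : ℤ × ℤ // Encl M' (nf M' h w F) c} =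
      {c : ℤ × ℤ | Encl M' (nf M' h w F) c}.ncard := Nat.card_coe_set_eq _
  have e2 : Nat.card {c : ℤ × ℤ // Encl M F c} = {c : ℤ × ℤ | Encl M F c}.ncard :=
    Nat.card_coe_set_eq _
  rw [e1, e2, key, Set.ncard_union_eq _ (finite_encl hF.2.2) (Finset.finite_toSet _),
    Set.ncard_coe_finset, Bk_card hw]
  rw [Set.disjoint_left]
  rintro ⟨a, b⟩ h2 h3
  rw [Finset.mem_coe, mem_Bk hw] at h3
  obtain ⟨i1, g1⟩ := Finite.exists_max (fun k : ZMod M => (F k).1)
  obtain ⟨i2, g2⟩ := Finite.exists_max (fun k : ZMod M => (F k).2)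
  obtain ⟨j1, g3⟩ := Finite.exists_min (fun k : ZMod M => (F k).1)
  have := encl_box hF.2.2 (fun i => ⟨g3 i, g1 i⟩) (fun i => ⟨hp i, g2 i⟩) h2
  have := this.2.1
  simp only at this
  omega

theorem nf_inj {h w M M' : ℕ} (hM' : M' = M + 2 * h + 2 * w) (hM : 2 ≤ M) (hh : 1 ≤ h) (hw : 1 ≤ w)
    {F1 F2 : ZMod M → ℤ × ℤ} (h10 : F1 0 = 0) (h20 : F2 0 = 0) (h11 : F1 1 = (1, 0))
    (h21 : F2 1 = (1, 0)) (he : nf M' h w F1 = nf M' h w F2) : F1 = F2 := by
  have : NeZero M := ⟨by omega⟩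
  funext k
  have hk := ZMod.val_lt k
  have e0 : ((k.val : ℕ) : ZMod M) = k := by rw [ZMod.natCast_val, ZMod.cast_id', id]
  rcases Nat.eq_zero_or_pos k.val with h0 | h0
  · rw [h0, Nat.cast_zero] at e0
    rw [← e0, h10, h20]
  · obtain ⟨i, hi⟩ : ∃ i, k.val = 1 + i := ⟨k.val - 1, by omega⟩
    have h3 := congrFun he ((2 * h + 2 * w + 1 + i : ℕ) : ZMod M')
    rw [nf_cast hM' (by omega), nf_cast hM' (by omega), G_hi hh hw h11, G_hi hh hw h21, ← hi, e0] at h3
    exact h3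

end Pool.Agent.H26.FA
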