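import Pool.Agent.H26.FA.Pmn

/-!
The large deviations of the half-perimeter of polygons with a given area.
-/

set_option autoImplicit false

open MeasureTheory Set Filter Topology Metric
open scoped ENNReal Pointwise

namespace Pool.Agent.H26.FA

open Pool.Agent.Y981.L2 H981 Pool.Agent.H26.WS Pool.Agent.H26.UN Pool.Agent.H26.GC
open Pool.Agent.H26.WF (Kc V g rho pr RR)

theorem log_four_ev {η : ℝ} (hη : 0 < η) : ∀ᶠ m : ℕ in atTop, Real.log (4 * (m : ℝ)) ≤ η * m := by
  filter_upwards [log_sq_ev 5 hη, eventually_ge_atTop 2] with m h1 h2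
  have h3 := four_n h2
  rw [← Real.log_le_iff_le_exp (by positivity)] at h3
  exact h3.trans h1

/-- the number of the polygons with half-perimeter `m` and area `n`, up to translation -/
noncomputable def pp (m n : ℕ) : ℝ := ((PQ (Ea n) m).ncard : ℝ) / (4 * (m : ℝ))

/-- **the growth rate of the number of the polygons with given perimeter and area** -/
theorem pmn_lim {u : ℝ} (hu : 0 < u) (hu4 : u < 1 / 4) {ι : Type*} {l : Filter ι} {M N : ι → ℕ}
    (hM : Tendsto M l atTop) (hN : Tendsto (fun j => (N j : ℝ) / (M j : ℝ) ^ 2) l (𝓝 u)) :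
    (∀ᶠ j in l, 0 < pp (M j) (N j)) ∧
    Tendsto (fun j => Real.log (pp (M j) (N j)) / M j) l (𝓝 (2 * Real.log mu - RR u)) := by
  have key : ∀ ε : ℝ, 0 < ε → ∀ᶠ j in l, 0 < pp (M j) (N j) ∧
      |Real.log (pp (M j) (N j)) / M j - (2 * Real.log mu - RR u)| < ε := by
    intro ε hε
    obtain ⟨δ1, hδ1, m₁, h1⟩ := pmn_up hu hu4 (show 0 < ε / 3 by linarith)
    obtain ⟨δ2, hδ2, m₂, h2⟩ := pmn_low hu hu4 (show 0 < ε / 3 by linarith)
    have hδ : 0 < min δ1 δ2 := lt_min hδ1 hδ2
    filter_upwards [hM.eventually_ge_atTop (m₁ + m₂ + 2), hM.eventually (log_four_ev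
      (show 0 < ε / 3 by linarith)), Metric.tendsto_nhds.1 hN _ hδ] with j a1 a2 a3
    have hm0 : (0 : ℝ) < M j := by exact_mod_cast (by omega : 0 < M j)
    have hm2 : (2 : ℝ) ≤ M j := by exact_mod_cast (by omega : 2 ≤ M j)
    rw [Real.dist_eq, abs_lt, lt_sub_iff_add_lt, sub_lt_iff_lt_add, lt_div_iff₀ (by positivity),
      div_lt_iff₀ (by positivity)] at a3
    obtain ⟨a4, a5⟩ := a3
    have hsq : 0 < (M j : ℝ) ^ 2 := by positivity
    have b1 : (u - δ1) * (M j : ℝ) ^ 2 ≤ N j :=
      (mul_le_mul_of_nonneg_right (by linarith [min_le_left δ1 δ2]) hsq.le).trans a4.le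
    have b2 : (u - δ2) * (M j : ℝ) ^ 2 ≤ N j :=
      (mul_le_mul_of_nonneg_right (by linarith [min_le_right δ1 δ2]) hsq.le).trans a4.le
    have b3 : (N j : ℝ) ≤ (u + δ2) * (M j : ℝ) ^ 2 :=
      a5.le.trans (mul_le_mul_of_nonneg_right (by linarith [min_le_right δ1 δ2]) hsq.le)
    have c1 := h1 (M j) (by omega) (N j) b1
    have c2 := h2 (M j) (by omega) (N j) b2 b3
    obtain ⟨X, hX⟩ : ∃ X : ℝ, X = ((PQ (Ea (N j)) (M j)).ncard : ℝ) := ⟨_, rfl⟩
    have hmu := mu_pos
    rw [← hX] at c1 c2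
    have hX0 : 0 < X := lt_of_lt_of_le (by positivity) c2
    have e0 : pp (M j) (N j) = X / (4 * (M j : ℝ)) := by rw [hX]; rfl
    have hmup : mu ^ (2 * M j) = Real.exp (2 * Real.log mu * M j) := by
      rw [← Real.rpow_natCast, Real.rpow_def_of_pos hmu]
      congr 1
      push_cast
      ring
    rw [hmup, ← Real.exp_add, ← Real.log_le_iff_le_exp hX0] at c1
    rw [hmup, ← Real.exp_add, ← Real.le_log_iff_exp_le hX0] at c2
    have hl4 : 0 ≤ Real.log (4 * (M j : ℝ)) := Real.log_nonneg (by linarith)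
    rw [e0]
    refine ⟨by positivity, ?_⟩
    rw [Real.log_div hX0.ne' (by positivity), abs_lt, lt_sub_iff_add_lt, sub_lt_iff_lt_add,
      lt_div_iff₀ hm0, div_lt_iff₀ hm0]
    have : 0 < ε * M j := by positivity
    constructor <;> linarith
  refine ⟨(key 1 one_pos).mono fun j h => h.1, ?_⟩
  rw [Metric.tendsto_nhds]
  intro ε hε
  filter_upwards [key ε hε] with j hj
  rw [Real.dist_eq]
  exact hj.2

/-- the rate function -/
noncomputable def JJ (E y : ℝ) : ℝ := y * (RR (1 / y ^ 2) + 2 * E) - 2 * g E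

theorem RR_inv {y : ℝ} (hy : 0 < y) : RR (1 / y ^ 2) = rho (1 / y) := by
  rw [WF.RR_eq (by positivity)]
  congr 1
  rw [show 1 / y ^ 2 = (1 / y) ^ 2 by rw [div_pow, one_pow], Real.sqrt_sq (by positivity)]

theorem inv_le_half {y : ℝ} (hy : 2 ≤ y) : 1 / y ≤ 1 / 2 := one_div_le_one_div_of_le (by norm_num) hy

theorem J_ge {E F y : ℝ} (hF : 0 < F) (hy : 2 ≤ y) :
    2 * g F - 2 * g E - 2 * y * (F - E) ≤ JJ E y := by
  have hy0 : 0 < y := by linarith
  have h := mul_le_mul_of_nonneg_left (WF.le_rho (show 0 ≤ 1 / y by positivity) (inv_le_half hy) hF)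
    hy0.le
  unfold JJ
  rw [RR_inv hy0]
  have e : y * (2 * (1 / y * g F) - 2 * F) = 2 * g F - 2 * y * F := by
    field_simp
  rw [e] at h
  linarith

theorem J_le {E y b : ℝ} (hy : 2 ≤ y) (h : ∀ F : ℝ, 0 < F → 2 * g F - 2 * g E - 2 * y * (F - E) ≤ b) :
    JJ E y ≤ b := by
  have hy0 : 0 < y := by linarith
  have h1 : rho (1 / y) ≤ (b + 2 * g E - 2 * y * E) / y := by
    apply WF.rho_le
    intro F hF
    rw [le_div_iff₀ hy0]
    have e : (2 * (1 / y * g F) - 2 * F) * y = 2 * g F - 2 * y * F := by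
      field_simp
    rw [e]
    linarith [h F hF]
  rw [le_div_iff₀ hy0] at h1
  unfold JJ
  rw [RR_inv hy0]
  linarith

theorem J_nonneg {E y : ℝ} (hE : 0 < E) (hy : 2 ≤ y) : 0 ≤ JJ E y := by
  have h := J_ge (E := E) hE hy
  simpa using h

theorem J_conv (E : ℝ) : ConvexOn ℝ (Ici 2) (JJ E) := by
  refine ⟨convex_Ici _, ?_⟩
  intro x hx y hy a b ha hb hab
  simp only [smul_eq_mul]
  have hx2 : 2 ≤ x := hx
  have hy2 : 2 ≤ y := hy
  apply J_le
  · have h1 := mul_le_mul_of_nonneg_left hx2 ha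
    have h2 := mul_le_mul_of_nonneg_left hy2 hb
    have h3 : a * 2 + b * 2 = 2 := by rw [← add_mul, hab, one_mul]
    linarith
  · intro F hF
    have h1 := mul_le_mul_of_nonneg_left (J_ge (E := E) hF hx2) ha
    have h2 := mul_le_mul_of_nonneg_left (J_ge (E := E) hF hy2) hb
    have h3 : 2 * g F - 2 * g E - 2 * (a * x + b * y) * (F - E) =
        a * (2 * g F - 2 * g E - 2 * x * (F - E)) + b * (2 * g F - 2 * g E - 2 * y * (F - E)) := by
      have : a = 1 - b := by linarith
      rw [this]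
      ring
    rw [h3]
    linarith

theorem J_cont (E : ℝ) : ContinuousOn (JJ E) (Ici 2) := by
  unfold JJ
  apply ContinuousOn.sub _ continuousOn_const
  apply ContinuousOn.mul continuousOn_id
  apply ContinuousOn.add _ continuousOn_const
  apply WF.RR_cont.comp
  · apply ContinuousOn.div continuousOn_const (by fun_prop)
    intro y hy
    have : 2 ≤ y := hy
    positivity
  · intro y hy
    have hy2 : 2 ≤ y := hy
    refine ⟨by positivity, ?_⟩
    rw [div_le_div_iff₀ (by positivity) (by norm_num)]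
    nlinarith

/-- the zeros -/
theorem J_zero {E D : ℝ} (hE : 0 < E) (hD : HasDerivAt g D E) {y : ℝ} (hy : 2 ≤ y) :
    JJ E y = 0 ↔ y = D := by
  constructor
  · intro h
    have h1 : ∀ F : ℝ, 0 < F → g F - y * F ≤ g E - y * E := by
      intro F hF
      have := J_ge (E := E) hF hy
      rw [h] at this
      linarith
    have h2 : IsLocalMax (fun F => g F - y * F) E := by
      filter_upwards [Ioi_mem_nhds hE] with F hF
      exact h1 F hF
    have h3 : HasDerivAt (fun F => g F - y * F) (D - y * 1) E :=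
      hD.sub ((hasDerivAt_id E).const_mul y)
    have h4 := h2.hasDerivAt_eq_zero h3
    linarith
  · intro h
    subst h
    apply le_antisymm _ (J_nonneg hE hy)
    apply J_le hy
    intro F hF
    rcases lt_trichotomy F E with h1 | h1 | h1
    · have h2 := WF.g_concave.le_slope_of_hasDerivAt (x := F) (y := E) hF hE h1 hD
      rw [slope_def_field, le_div_iff₀ (by linarith)] at h2
      linarith
    · rw [h1]; simp
    · have h2 := WF.g_concave.slope_le_of_hasDerivAt (x := E) (y := F) hE hF h1 hD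
      rw [slope_def_field, div_le_iff₀ (by linarith)] at h2
      linarith

end Pool.Agent.H26.FA
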