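import Pool.Agent.H26.FA.Ldp

/-!
The large deviation principle of the half-perimeter of polygons with a given area.
-/

set_option autoImplicit false

open MeasureTheory Set Filter Topology Metric
open scoped ENNReal Pointwise

namespace Pool.Agent.H26.FA

open Pool.Agent.Y981.L2 H981 Pool.Agent.H26.WS Pool.Agent.H26.UN Pool.Agent.H26.GC
open Pool.Agent.H26.WF (Kc V g rho pr RR)

/-- polygons of area `n` with half-perimeter in `√n • S` -/
def QS (n : ℕ) (S : Set ℝ) : ∀ m : ℕ, (ZMod (2 * m) → ℤ × ℤ) → Prop :=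
  fun m f => area (2 * m) f = n ∧ (m : ℝ) / √(n : ℝ) ∈ S

theorem QS_sum {E : ℝ} (hE : 0 < E) {n : ℕ} (hn : 0 < n) (S : Set ℝ) :
    Summable (GC.tm (zz E) (QS n S)) :=
  (GC.sum_of_le (zz_pos E) (fun m _ f _ hq => (hq.1 : Ea n m f)) (sum_Ea hE hn)).1

/-- Chernoff's bound -/
theorem cher {E F t η : ℝ} (hE : 0 < E) (hF : 0 < F) (hη : 0 < η) : ∀ᶠ n : ℕ in atTop, ∀ S : Set ℝ,
    (∀ y ∈ S, t + η ≤ 2 * g F - 2 * g E - 2 * y * (F - E)) →
    GC.Zs (zz E) (QS n S) ≤ Real.exp (-(t * √(n : ℝ))) * GC.Zs (zz E) (Ea n) := by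
  filter_upwards [exact_low hE (show 0 < η / 4 by linarith),
    exact_up hF (show 0 < η / 4 by linarith), eventually_ge_atTop 1] with n h1 h2 hn S hS
  have hn0 : (0 : ℝ) < n := by exact_mod_cast hn
  have hs : 0 < √(n : ℝ) := Real.sqrt_pos.2 hn0
  have e1 : zz E * Real.exp (E - F) = zz F := by
    unfold zz
    rw [div_mul_eq_mul_div, ← Real.exp_add]
    congr 2
    ring
  have h3 := GC.Zs_tilt (zz_pos E) (t := E - F)
    (B := √(n : ℝ) * (2 * g F - 2 * g E - t - η)) (Q := QS n S) (Q' := Ea n)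
    (fun m _ f _ hq => ⟨hq.1, by
      have h4 := hS _ hq.2
      have h5 : 2 * ((m : ℝ) / √(n : ℝ)) * (F - E) ≤ 2 * g F - 2 * g E - t - η := by linarith
      have h6 := mul_le_mul_of_nonneg_left h5 hs.le
      have h7 : √(n : ℝ) * (2 * ((m : ℝ) / √(n : ℝ)) * (F - E)) = -(2 * (m * (E - F))) := by
        field_simp
        ring
      rwa [h7] at h6⟩) (by rw [e1]; exact sum_Ea hF hn)
  rw [e1] at h3
  refine h3.2.trans ?_
  calc Real.exp (√(n : ℝ) * (2 * g F - 2 * g E - t - η)) * GC.Zs (zz F) (Ea n) ≤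
      Real.exp (√(n : ℝ) * (2 * g F - 2 * g E - t - η)) *
        Real.exp (-(2 * (√(n : ℝ) * (g F - η / 4)))) :=
        mul_le_mul_of_nonneg_left h2 (Real.exp_pos _).le
    _ = Real.exp (-(t * √(n : ℝ))) * Real.exp (-(2 * (√(n : ℝ) * (g E + η / 4)))) := by
        rw [← Real.exp_add, ← Real.exp_add]
        congr 1
        ring
    _ ≤ _ := mul_le_mul_of_nonneg_left h1 (Real.exp_pos _).le

/-- exponentially small with a rate larger than `t` -/
def Gd (E t : ℝ) (S : Set ℝ) : Prop := ∃ t' : ℝ, t < t' ∧ ∀ᶠ n : ℕ in atTop,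
  GC.Zs (zz E) (QS n S) ≤ Real.exp (-(t' * √(n : ℝ))) * GC.Zs (zz E) (Ea n)

theorem Gd_mono {E t : ℝ} (hE : 0 < E) {S S' : Set ℝ} (h : S ⊆ S') (h' : Gd E t S') : Gd E t S := by
  obtain ⟨t', h1, h2⟩ := h'
  refine ⟨t', h1, ?_⟩
  filter_upwards [h2, eventually_ge_atTop 1] with n h3 hn
  exact (GC.sum_of_le (zz_pos E) (fun m _ f _ hq => (⟨hq.1, h hq.2⟩ : QS n S' m f))
    (QS_sum hE hn S')).2.trans h3

theorem Gd_union {E t : ℝ} (hE : 0 < E) {S S' : Set ℝ} (h : Gd E t S) (h' : Gd E t S') :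
    Gd E t (S ∪ S') := by
  obtain ⟨t1, h1, h2⟩ := h
  obtain ⟨t2, h3, h4⟩ := h'
  obtain ⟨t3, h5, h6⟩ := exists_between (lt_min h1 h3)
  refine ⟨t3, h5, ?_⟩
  have h7 : Tendsto (fun n : ℕ => Real.exp (-((min t1 t2 - t3) * √(n : ℝ)))) atTop (𝓝 0) := by
    apply Real.tendsto_exp_neg_atTop_nhds_zero.comp
    exact ((Real.tendsto_sqrt_atTop.comp tendsto_natCast_atTop_atTop).const_mul_atTop
      (show 0 < min t1 t2 - t3 by linarith))
  filter_upwards [h2, h4, eventually_ge_atTop 1,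
    h7.eventually_lt_const (show (0 : ℝ) < 1 / 2 by norm_num)] with n a1 a2 hn a3
  have hs : 0 ≤ √(n : ℝ) := Real.sqrt_nonneg _
  have hZ : 0 ≤ GC.Zs (zz E) (Ea n) := tsum_nonneg (GC.tm_nonneg (zz_pos E) _)
  have b := (GC.Zs_split (zz_pos E) (Q := QS n (S ∪ S')) (Q1 := QS n S) (Q2 := QS n S')
    (fun m _ f _ hq => hq.2.elim (fun h => Or.inl ⟨hq.1, h⟩) (fun h => Or.inr ⟨hq.1, h⟩))
    (QS_sum hE hn S) (QS_sum hE hn S')).2
  have c : ∀ t' : ℝ, min t1 t2 ≤ t' → Real.exp (-(t' * √(n : ℝ))) ≤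
      1 / 2 * Real.exp (-(t3 * √(n : ℝ))) := by
    intro t' ht'
    calc Real.exp (-(t' * √(n : ℝ))) ≤ Real.exp (-(min t1 t2 * √(n : ℝ))) :=
          Real.exp_le_exp.2 (by linarith [mul_le_mul_of_nonneg_right ht' hs])
      _ = Real.exp (-((min t1 t2 - t3) * √(n : ℝ))) * Real.exp (-(t3 * √(n : ℝ))) := by
          rw [← Real.exp_add]
          congr 1
          ring
      _ ≤ _ := mul_le_mul_of_nonneg_right a3.le (Real.exp_pos _).le
  have d1 := a1.trans (mul_le_mul_of_nonneg_right (c t1 (min_le_left _ _)) hZ)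
  have d2 := a2.trans (mul_le_mul_of_nonneg_right (c t2 (min_le_right _ _)) hZ)
  linarith

theorem Gd_low {E t : ℝ} (hE : 0 < E) {S : Set ℝ} (h : Gd E t (S ∩ Ici 2)) : Gd E t S := by
  obtain ⟨t', h1, h2⟩ := h
  refine ⟨t', h1, ?_⟩
  filter_upwards [h2, eventually_ge_atTop 1] with n h3 hn
  have hn0 : (0 : ℝ) < n := by exact_mod_cast hn
  have hs : 0 < √(n : ℝ) := Real.sqrt_pos.2 hn0
  refine (GC.sum_of_le (zz_pos E) (fun m hm f hf hq => (⟨hq.1, hq.2, ?_⟩ :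
    QS n (S ∩ Ici 2) m f)) (QS_sum hE hn (S ∩ Ici 2))).2.trans h3
  have h4 := WF.area_quarter (show 1 ≤ m by omega) hf
  rw [hq.1] at h4
  show 2 ≤ (m : ℝ) / √(n : ℝ)
  rw [le_div_iff₀ hs]
  have h5 : (2 * √(n : ℝ)) ^ 2 ≤ (m : ℝ) ^ 2 := by
    rw [mul_pow, Real.sq_sqrt hn0.le]
    linarith
  exact le_of_sq_le_sq h5 (Nat.cast_nonneg _)

theorem Gd_tail {E t : ℝ} (hE : 0 < E) : ∃ B : ℝ, 2 ≤ B ∧ Gd E t (Ici B) := by
  refine ⟨max 2 ((t + 2 + 2 * g E) / E), le_max_left _ _, t + 1, by linarith, ?_⟩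
  filter_upwards [cher (t := t + 1) hE (show 0 < E / 2 by linarith) one_pos] with n h
  apply h
  intro y hy
  have h1 : (t + 2 + 2 * g E) / E ≤ y := (le_max_right _ _).trans hy
  rw [div_le_iff₀ hE] at h1
  have h2 := WF.g_nonneg (E / 2)
  linarith

theorem Gd_local {E t : ℝ} (hE : 0 < E) {y : ℝ} (hy : 2 ≤ y) (h : t < JJ E y) :
    ∃ U ∈ 𝓝 y, Gd E t U := by
  obtain ⟨t₁, h1, h2⟩ := exists_between h
  obtain ⟨F, hF, h3⟩ : ∃ F : ℝ, 0 < F ∧ t₁ < 2 * g F - 2 * g E - 2 * y * (F - E) := by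
    by_contra hcon
    push Not at hcon
    exact absurd (J_le hy hcon) (not_le.2 h2)
  obtain ⟨t', h4, h5⟩ := exists_between h1
  refine ⟨{y' | t₁ < 2 * g F - 2 * g E - 2 * y' * (F - E)}, ?_, t', h4, ?_⟩
  · have hc : Continuous fun y' : ℝ => 2 * g F - 2 * g E - 2 * y' * (F - E) := by fun_prop
    exact (isOpen_lt continuous_const hc).mem_nhds h3
  · filter_upwards [cher (t := t') (η := t₁ - t') hE hF (by linarith)] with n h6
    apply h6
    intro y' hy'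
    have : t₁ < 2 * g F - 2 * g E - 2 * y' * (F - E) := hy'
    linarith

theorem Gd_empty {E t : ℝ} (hE : 0 < E) : Gd E t ∅ := by
  refine ⟨t + 1, by linarith, ?_⟩
  filter_upwards [cher (t := t + 1) hE hE one_pos] with n h
  exact h ∅ (fun y hy => absurd hy (Set.notMem_empty y))

/-- **the upper bound** -/
theorem ldp_up {E t : ℝ} (hE : 0 < E) {S : Set ℝ} (hS : IsClosed S)
    (h : ∀ y ∈ S, 2 ≤ y → t < JJ E y) : ∀ᶠ n : ℕ in atTop,
    GC.Zs (zz E) (QS n S) ≤ Real.exp (-(t * √(n : ℝ))) * GC.Zs (zz E) (Ea n) := by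
  obtain ⟨B, hB, hT⟩ := Gd_tail (t := t) hE
  have hc : IsCompact (S ∩ Icc 2 B) := isCompact_Icc.inter_left hS
  have h1 : Gd E t (S ∩ Icc 2 B) := by
    refine hc.induction_on (p := fun S => Gd E t S) (Gd_empty hE)
      (fun s s' hss h' => Gd_mono hE hss h') (fun s s' => Gd_union hE) ?_
    intro y hy
    obtain ⟨U, hU, hG⟩ := Gd_local hE hy.2.1 (h y hy.1 hy.2.1)
    exact ⟨U, mem_nhdsWithin_of_mem_nhds hU, hG⟩
  obtain ⟨t', h2, h3⟩ : Gd E t S := by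
    apply Gd_low hE
    refine Gd_mono hE ?_ (Gd_union hE h1 hT)
    rintro y ⟨hy1, hy2⟩
    rcases le_total y B with h4 | h4
    · exact Or.inl ⟨hy1, hy2, h4⟩
    · exact Or.inr h4
  filter_upwards [h3] with n h4
  refine h4.trans ?_
  apply mul_le_mul_of_nonneg_right _ (tsum_nonneg (GC.tm_nonneg (zz_pos E) _))
  exact Real.exp_le_exp.2 (by linarith [mul_le_mul_of_nonneg_right h2.le (Real.sqrt_nonneg (n : ℝ))])

/-- **the local form** -/
theorem loc_lim {E y : ℝ} (hE : 0 < E) (hy : 2 < y) {M : ℕ → ℕ}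
    (hM : Tendsto (fun n : ℕ => (M n : ℝ) / √(n : ℝ)) atTop (𝓝 y)) :
    (∀ᶠ n in atTop, 0 < pp (M n) n) ∧
    Tendsto (fun n : ℕ => Real.log (zz E ^ (2 * M n) * pp (M n) n / GC.Zs (zz E) (Ea n)) / √(n : ℝ))
      atTop (𝓝 (-JJ E y)) := by
  have hy0 : 0 < y := by linarith
  have hsq : Tendsto (fun n : ℕ => √(n : ℝ)) atTop atTop :=
    Real.tendsto_sqrt_atTop.comp tendsto_natCast_atTop_atTop
  have hMi : Tendsto M atTop atTop := by
    have h1 : Tendsto (fun n : ℕ => (M n : ℝ) / √(n : ℝ) * √(n : ℝ)) atTop atTop :=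
      hM.pos_mul_atTop hy0 hsq
    rw [← tendsto_natCast_atTop_iff (R := ℝ)]
    refine h1.congr' ?_
    filter_upwards [eventually_ge_atTop 1] with n hn
    have hn0 : (0 : ℝ) < n := by exact_mod_cast hn
    have hs : 0 < √(n : ℝ) := Real.sqrt_pos.2 hn0
    exact div_mul_cancel₀ _ hs.ne'
  have hN : Tendsto (fun n : ℕ => (n : ℝ) / (M n : ℝ) ^ 2) atTop (𝓝 (1 / y ^ 2)) := by
    have h1 : Tendsto (fun n : ℕ => 1 / ((M n : ℝ) / √(n : ℝ)) ^ 2) atTop (𝓝 (1 / y ^ 2)) :=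
      tendsto_const_nhds.div (hM.pow 2) (by positivity)
    refine h1.congr ?_
    intro n
    rw [div_pow, Real.sq_sqrt (Nat.cast_nonneg _), one_div_div]
  have hu4 : 1 / y ^ 2 < 1 / 4 := by
    apply one_div_lt_one_div_of_lt (by norm_num)
    nlinarith
  obtain ⟨h1, h2⟩ := pmn_lim (show 0 < 1 / y ^ 2 by positivity) hu4 (N := fun n => n) hMi hN
  refine ⟨h1, ?_⟩
  have h3 := exact_lim hE
  have h4 : Tendsto (fun n : ℕ => (M n : ℝ) / √(n : ℝ) * (-(2 * (E + Real.log mu)) +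
      Real.log (pp (M n) n) / M n) - Real.log (GC.Zs (zz E) (Ea n)) / √(n : ℝ)) atTop
      (𝓝 (y * (-(2 * (E + Real.log mu)) + (2 * Real.log mu - RR (1 / y ^ 2))) - -(2 * g E))) :=
    (hM.mul (h2.const_add _)).sub h3
  have e : y * (-(2 * (E + Real.log mu)) + (2 * Real.log mu - RR (1 / y ^ 2))) - -(2 * g E) =
      -JJ E y := by
    unfold JJ
    ring
  rw [e] at h4
  refine h4.congr' ?_
  filter_upwards [h1, exact_low hE one_pos, hMi.eventually_ge_atTop 1, eventually_ge_atTop 1]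
    with n a1 a2 a3 hn
  have hZ : 0 < GC.Zs (zz E) (Ea n) := (Real.exp_pos _).trans_le a2
  have hM0 : (0 : ℝ) < M n := by exact_mod_cast a3
  have hn0 : (0 : ℝ) < n := by exact_mod_cast hn
  have hs : 0 < √(n : ℝ) := Real.sqrt_pos.2 hn0
  have hz := zz_pos E
  rw [Real.log_div (by positivity) hZ.ne', Real.log_mul (by positivity) a1.ne', zz_pow,
    Real.log_exp]
  push_cast
  field_simp

/-- **the lower bound** -/
theorem ldp_low {E y ε : ℝ} (hE : 0 < E) (hy : 2 ≤ y) {U : Set ℝ} (hU : U ∈ 𝓝 y) (hε : 0 < ε) :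
    ∀ᶠ n : ℕ in atTop, Real.exp (-((JJ E y + ε) * √(n : ℝ))) * GC.Zs (zz E) (Ea n) ≤
      GC.Zs (zz E) (QS n U) := by
  obtain ⟨y', h1, h2, h3⟩ : ∃ y' : ℝ, y < y' ∧ U ∈ 𝓝 y' ∧ JJ E y' < JJ E y + ε / 2 := by
    have a1 : ∀ᶠ y' in 𝓝[>] y, y < y' := eventually_mem_nhdsWithin
    have a2 : ∀ᶠ y' in 𝓝[>] y, U ∈ 𝓝 y' :=
      nhdsWithin_le_nhds (eventually_mem_nhds_iff.2 hU)
    have a3 : ∀ᶠ y' in 𝓝[>] y, JJ E y' < JJ E y + ε / 2 := by
      have h4 : Tendsto (JJ E) (𝓝[>] y) (𝓝 (JJ E y)) :=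
        (J_cont E y hy).mono_left (nhdsWithin_mono y fun z hz => (hy.trans (le_of_lt hz) : 2 ≤ z))
      exact h4.eventually_lt_const (by linarith)
    exact ((a1.and a2).and a3).exists.imp fun z hz => ⟨hz.1.1, hz.1.2, hz.2⟩
  have hy' : 2 < y' := by linarith
  obtain ⟨M, hM⟩ : ∃ M : ℕ → ℕ, M = fun n : ℕ => ⌈y' * √(n : ℝ)⌉₊ := ⟨_, rfl⟩
  have hMt : Tendsto (fun n : ℕ => (M n : ℝ) / √(n : ℝ)) atTop (𝓝 y') := by
    rw [hM]
    exact (tendsto_nat_ceil_mul_div_atTop (show 0 ≤ y' by linarith)).comp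
      (Real.tendsto_sqrt_atTop.comp tendsto_natCast_atTop_atTop)
  obtain ⟨h5, h6⟩ := loc_lim hE hy' hMt
  filter_upwards [h5, h6.eventually_const_lt (show -(JJ E y' + ε / 2) < -JJ E y' by linarith),
    hMt.eventually (show ∀ᶠ z in 𝓝 y', z ∈ U from h2), exact_low hE one_pos,
    eventually_ge_atTop 1] with n a1 a2 a3 a4 hn
  have hn0 : (0 : ℝ) < n := by exact_mod_cast hn
  have hs : 0 < √(n : ℝ) := Real.sqrt_pos.2 hn0
  have hZ : 0 < GC.Zs (zz E) (Ea n) := (Real.exp_pos _).trans_le a4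
  have hz := zz_pos E
  have hM2 : 2 ≤ M n := by
    have h7 : (1 : ℝ) ≤ √(n : ℝ) := by
      rw [Real.one_le_sqrt]
      exact_mod_cast hn
    have h8 : (2 : ℝ) ≤ M n := by
      rw [hM]
      refine le_trans ?_ (Nat.le_ceil _)
      nlinarith
    exact_mod_cast h8
  rw [lt_div_iff₀ hs, Real.lt_log_iff_exp_lt (by positivity), lt_div_iff₀ hZ] at a2
  have e : -(JJ E y' + ε / 2) * √(n : ℝ) = -((JJ E y' + ε / 2) * √(n : ℝ)) := by ring
  rw [e] at a2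
  have b1 : Real.exp (-((JJ E y + ε) * √(n : ℝ))) * GC.Zs (zz E) (Ea n) ≤
      Real.exp (-((JJ E y' + ε / 2) * √(n : ℝ))) * GC.Zs (zz E) (Ea n) := by
    apply mul_le_mul_of_nonneg_right _ hZ.le
    apply Real.exp_le_exp.2
    have : (JJ E y' + ε / 2) * √(n : ℝ) ≤ (JJ E y + ε) * √(n : ℝ) :=
      mul_le_mul_of_nonneg_right (by linarith) hs.le
    linarith
  refine b1.trans (a2.le.trans ?_)
  have b2 : zz E ^ (2 * M n) * pp (M n) n = GC.tm (zz E) (QS n U) (M n - 2) := by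
    have e2 : M n - 2 + 2 = M n := by omega
    have e3 : PQ (Ea n) (M n) = PQ (QS n U) (M n) := by
      ext f
      exact ⟨fun h => ⟨h.1, h.2, a3⟩, fun h => ⟨h.1, h.2.1⟩⟩
    unfold GC.tm pp
    rw [e2, mul_div_assoc, e3]
  rw [b2]
  exact (QS_sum hE hn U).le_tsum _ (fun k _ => GC.tm_nonneg hz _ k)

end Pool.Agent.H26.FA
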