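import Pool.Agent.H26.FA.Slope

/-!
The number of polygons with given perimeter and given area (of the order of the square of the
perimeter).
-/

set_option autoImplicit false

open MeasureTheory Set Filter Topology Metric
open scoped ENNReal Pointwise

namespace Pool.Agent.H26.FA

open Pool.Agent.Y981.L2 H981 Pool.Agent.H26.WS Pool.Agent.H26.UN Pool.Agent.H26.GC
open Pool.Agent.H26.WF (Kc V g rho pr RR)

/-- three insertions -/
theorem count_three {b l : ℕ} (hl : 4 * Nat.sqrt b + 7 ≤ l) (hb : l ≤ b) {n A : ℕ} (hn : 2 ≤ n) :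
    (PQ (Ea A) n).ncard ≤ (4 * (n + l)) ^ 3 * (PQ (Ea (A + b)) (n + l)).ncard := by
  obtain ⟨D, hD⟩ : ∃ D, D = b - l := ⟨_, rfl⟩
  obtain ⟨s, hs⟩ : ∃ s, s = Nat.sqrt D := ⟨_, rfl⟩
  have h1 : s * s ≤ D := by rw [hs]; exact Nat.sqrt_le _
  have h2 : D ≤ s * s + s + s := by rw [hs]; exact Nat.sqrt_le_add _
  obtain ⟨t, ht⟩ : ∃ t, t = D - s * s := ⟨_, rfl⟩
  have hsb : s ≤ Nat.sqrt b := by rw [hs]; exact Nat.sqrt_le_sqrt (by omega)
  obtain ⟨r, hr⟩ : ∃ r, r = l - (2 * s + 2) - (t + 3) - 1 := ⟨_, rfl⟩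
  have hr1 : 1 ≤ r := by omega
  have hrl : r + (2 * s + 2) + (t + 3) + 1 = l := by omega
  have c1 := count_ins (A := A) (h := s + 1) (w := s + 1) hn (by omega) (by omega)
  have c2 := count_ins (A := A + ((s + 1) * (s + 1) + 1)) (n := n + (s + 1) + (s + 1)) (h := 2)
    (w := t + 1) (by omega) (by omega) (by omega)
  have c3 := count_ins (A := A + ((s + 1) * (s + 1) + 1) + ((t + 1) * 2 + 1))
    (n := n + (s + 1) + (s + 1) + 2 + (t + 1)) (h := 1) (w := r) (by omega) (by omega) (by omega)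
  have e0 : (s + 1) * (s + 1) = s * s + 2 * s + 1 := by ring
  have e1 : A + ((s + 1) * (s + 1) + 1) + ((t + 1) * 2 + 1) + (r * 1 + 1) = A + b := by
    rw [e0]
    omega
  have e2 : n + (s + 1) + (s + 1) + 2 + (t + 1) + 1 + r = n + l := by omega
  rw [e1, e2] at c3
  obtain ⟨X, hX⟩ : ∃ X, X = (PQ (Ea (A + b)) (n + l)).ncard := ⟨_, rfl⟩
  rw [← hX] at c3 ⊢
  have k1 : 4 * n ≤ 4 * (n + l) := by omega
  have k2 : 4 * (n + (s + 1) + (s + 1)) ≤ 4 * (n + l) := by omega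
  have k3 : 4 * (n + (s + 1) + (s + 1) + 2 + (t + 1)) ≤ 4 * (n + l) := by omega
  calc (PQ (Ea A) n).ncard ≤ _ := c1
    _ ≤ 4 * (n + l) * (4 * (n + l) * (4 * (n + l) * X)) := by
        apply Nat.mul_le_mul k1
        refine c2.trans ?_
        apply Nat.mul_le_mul k2
        refine c3.trans ?_
        exact Nat.mul_le_mul k3 le_rfl
    _ = _ := by ring

theorem win_card {m : ℕ} (hm : 1 ≤ m) {S : Set ℝ} {F : Finset ℕ}
    (hF : ∀ A : ℕ, (A : ℝ) ∈ S → A ∈ F) :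
    (PQ (GC.In S) m).ncard ≤ ∑ A ∈ F, (PQ (Ea A) m).ncard := by
  classical
  have h1 : (PQ_finite (GC.In S) hm).toFinset ⊆
      F.biUnion (fun A => (PQ_finite (Ea A) hm).toFinset) := by
    intro f hf
    rw [Set.Finite.mem_toFinset] at hf
    rw [Finset.mem_biUnion]
    refine ⟨area (2 * m) f, hF _ hf.2, ?_⟩
    rw [Set.Finite.mem_toFinset]
    exact ⟨hf.1, rfl⟩
  have h2 := (Finset.card_le_card h1).trans Finset.card_biUnion_le
  rw [← Set.ncard_eq_toFinset_card _ (PQ_finite (GC.In S) hm)] at h2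
  have h3 : ∑ A ∈ F, (PQ_finite (Ea A) hm).toFinset.card =
      ∑ A ∈ F, (PQ (Ea A) m).ncard := by
    apply Finset.sum_congr rfl
    intro A _
    rw [← Set.ncard_eq_toFinset_card _ (PQ_finite (Ea A) hm)]
  rwa [h3] at h2

theorem card_In {n : ℕ} (hn : 2 ≤ n) (S : Set ℝ) : ((PQ (GC.In S) n).ncard : ℝ) = pr n S * ln n := by
  obtain ⟨K, -, h⟩ := Y981.L2.ln_le
  have hln := (h n hn).1
  have e2 : (ln n : ℝ) = ({f : ZMod (2 * n) → ℤ × ℤ | IsLoop (2 * n) f}.ncard : ℝ) := rfl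
  unfold pr
  rw [e2] at hln ⊢
  rw [div_mul_cancel₀ _ hln.ne']
  rfl

/-- the insertion for all areas of a window -/
theorem win_ins {m l n : ℕ} (hm : 2 ≤ m) {S : Set ℝ} (hS : ∀ A : ℕ, (A : ℝ) ∈ S → A < n ∧
    4 * Nat.sqrt (n - A) + 7 ≤ l ∧ l ≤ n - A) :
    (PQ (GC.In S) m).ncard ≤ n * ((4 * (m + l)) ^ 3 * (PQ (Ea n) (m + l)).ncard) := by
  classical
  have h1 := win_card (show 1 ≤ m by omega) (S := S)
    (F := (Finset.range n).filter (fun A : ℕ => (A : ℝ) ∈ S)) (fun A hA => by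
      rw [Finset.mem_filter, Finset.mem_range]
      exact ⟨(hS A hA).1, hA⟩)
  refine h1.trans ?_
  have h2 : ∀ A ∈ (Finset.range n).filter (fun A : ℕ => (A : ℝ) ∈ S), (PQ (Ea A) m).ncard ≤
      (4 * (m + l)) ^ 3 * (PQ (Ea n) (m + l)).ncard := by
    intro A hA
    rw [Finset.mem_filter] at hA
    obtain ⟨h3, h4, h5⟩ := hS A hA.2
    have h6 := count_three h4 h5 (n := m) (A := A) hm
    rwa [show A + (n - A) = n by omega] at h6
  refine (Finset.sum_le_card_nsmul _ _ _ h2).trans ?_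
  rw [smul_eq_mul]
  apply Nat.mul_le_mul_right
  exact (Finset.card_filter_le _ _).trans (Finset.card_range n).le

theorem log_sq_ev (K : ℝ) {η : ℝ} (hη : 0 < η) : ∀ᶠ m : ℕ in atTop, K * Real.log m ^ 2 ≤ η * m := by
  have h := (Real.isLittleO_pow_log_id_atTop (n := 2)).comp_tendsto tendsto_natCast_atTop_atTop
  have h2 := (h.const_mul_left K).def hη
  filter_upwards [h2] with m hm
  simp only [Function.comp_apply, id_eq, Real.norm_eq_abs] at hm
  rw [(abs_of_nonneg (Nat.cast_nonneg m) : |(m : ℝ)| = m)] at hm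
  exact (le_abs_self _).trans hm

/-- **upper bound** of the number of polygons with given perimeter and area -/
theorem pmn_up {u ε : ℝ} (hu : 0 < u) (hu4 : u < 1 / 4) (hε : 0 < ε) :
    ∃ δ : ℝ, 0 < δ ∧ ∃ m₀ : ℕ, ∀ m : ℕ, m₀ ≤ m → ∀ n : ℕ, (u - δ) * (m : ℝ) ^ 2 ≤ n →
      ((PQ (Ea n) m).ncard : ℝ) ≤ Real.exp (-((RR u - ε) * m)) * mu ^ (2 * m) := by
  have hcont : Tendsto RR (𝓝[<] u) (𝓝 (RR u)) := by
    have h1 : ContinuousAt RR u := WF.RR_cont.continuousAt (Icc_mem_nhds hu hu4)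
    exact h1.tendsto.mono_left nhdsWithin_le_nhds
  obtain ⟨v, ⟨hv0, hvu⟩, hv⟩ := ((Ioo_mem_nhdsLT hu : Ioo 0 u ∈ 𝓝[<] u) |>
    fun h => (Filter.inter_mem h (hcont.eventually_const_lt (show RR u - ε / 3 < RR u by linarith))) |>
    fun h => (Filter.nonempty_of_mem h))
  obtain ⟨K, hK, hln⟩ := Y981.L2.ln_le
  have hev := WF.ev_par hv0 (hvu.trans hu4) (show 0 < ε / 3 by linarith)
  have hlog := log_sq_ev K (show 0 < ε / 3 by linarith)
  obtain ⟨m₀, hm₀⟩ := eventually_atTop.1 (hev.and (hlog.and (eventually_ge_atTop 2)))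
  refine ⟨u - v, by linarith, m₀, ?_⟩
  intro m hm n hn
  obtain ⟨⟨-, h1⟩, h2, h3⟩ := hm₀ m hm
  have hmu := mu_pos
  rw [sub_sub_cancel] at hn
  have h4 : ((PQ (Ea n) m).ncard : ℝ) ≤ ((PQ (Ar (v * (m : ℝ) ^ 2)) m).ncard : ℝ) := by
    have := Set.ncard_le_ncard (s := PQ (Ea n) m) (t := PQ (Ar (v * (m : ℝ) ^ 2)) m) (by
      rintro f ⟨h5, h6⟩
      refine ⟨h5, ?_⟩
      have h6' : area (2 * m) f = n := h6
      show v * (m : ℝ) ^ 2 ≤ (area (2 * m) f : ℝ)
      rw [h6']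
      exact hn) (PQ_finite _ (by omega))
    exact_mod_cast this
  rw [card_Ar h3] at h4
  have h5 := (hln m h3).2
  have hv' : RR u - ε / 3 < RR v := hv
  refine h4.trans ?_
  calc par m (v * (m : ℝ) ^ 2) * (ln m : ℝ) ≤
      Real.exp (-((RR v - ε / 3) * m)) * (mu ^ (2 * m) * TH795.EP2.q m K) :=
        mul_le_mul h1 h5 (Nat.cast_nonneg _) (Real.exp_pos _).le
    _ = Real.exp (-((RR v - ε / 3) * m) + K * Real.log m ^ 2) * mu ^ (2 * m) := by
        unfold TH795.EP2.q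
        rw [Real.exp_add]
        ring
    _ ≤ _ := by
        apply mul_le_mul_of_nonneg_right _ (by positivity)
        apply Real.exp_le_exp.2
        have h6 : (RR u - ε / 3) * m ≤ RR v * m := mul_le_mul_of_nonneg_right hv'.le (Nat.cast_nonneg _)
        linarith

/-- **lower bound** of the number of polygons with given perimeter and area -/
theorem pmn_low {u ε : ℝ} (hu : 0 < u) (hu4 : u < 1 / 4) (hε : 0 < ε) :
    ∃ δ : ℝ, 0 < δ ∧ ∃ m₀ : ℕ, ∀ m : ℕ, m₀ ≤ m → ∀ n : ℕ, (u - δ) * (m : ℝ) ^ 2 ≤ n →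
      n ≤ (u + δ) * (m : ℝ) ^ 2 →
      Real.exp (-((RR u + ε) * m)) * mu ^ (2 * m) ≤ ((PQ (Ea n) m).ncard : ℝ) := by
  have hlm := WF.log_mu_nonneg
  -- the parameter `η`
  obtain ⟨fa, hfa⟩ : ∃ fa : ℝ → ℝ, fa = fun η => (u - 2 * (η ^ 2 / 256)) / (1 - η) ^ 2 := ⟨_, rfl⟩
  have hfc : ContinuousAt fa 0 := by
    rw [hfa]
    apply ContinuousAt.div
    · fun_prop
    · fun_prop
    · norm_num
  have hf0 : fa 0 = u := by rw [hfa]; norm_num
  have hRc : ContinuousAt RR (fa 0) := by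
    rw [hf0]
    exact WF.RR_cont.continuousAt (Icc_mem_nhds hu hu4)
  have hRf : ContinuousAt (fun η => RR (fa η)) 0 := hRc.comp hfc
  have q1 : ∀ᶠ η in 𝓝[>] (0 : ℝ), 0 < fa η :=
    nhdsWithin_le_nhds (hfc.eventually (lt_mem_nhds (by rw [hf0]; exact hu)))
  have q2 : ∀ᶠ η in 𝓝[>] (0 : ℝ), fa η < 1 / 4 :=
    nhdsWithin_le_nhds (hfc.eventually (gt_mem_nhds (by rw [hf0]; exact hu4)))
  have q3 : ∀ᶠ η in 𝓝[>] (0 : ℝ), RR (fa η) < RR u + ε / 5 :=
    nhdsWithin_le_nhds (hRf.eventually (gt_mem_nhds (by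
      show RR (fa 0) < RR u + ε / 5
      rw [hf0]; linarith)))
  have q4 : ∀ᶠ η in 𝓝[>] (0 : ℝ), 2 * η * Real.log mu < ε / 5 := by
    have h : ContinuousAt (fun η : ℝ => 2 * η * Real.log mu) 0 := by fun_prop
    exact nhdsWithin_le_nhds (h.eventually (gt_mem_nhds (by norm_num; exact hε)))
  obtain ⟨η, ⟨⟨⟨q1, q2⟩, q3⟩, q4⟩, hη⟩ :=
    (((((q1.and q2).and q3).and q4).and (Ioo_mem_nhdsGT (show (0 : ℝ) < 1 / 2 by norm_num)))).exists
  obtain ⟨a, ha⟩ : ∃ a, a = fa η := ⟨_, rfl⟩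
  rw [← ha] at q1 q2 q3
  have hη0 : 0 < η := hη.1
  have hη2 : η < 1 / 2 := hη.2
  have h1η : 0 < 1 - η := by linarith
  obtain ⟨e, he⟩ : ∃ e, e = η ^ 2 / 256 := ⟨_, rfl⟩
  have he0 : 0 < e := by rw [he]; positivity
  have hae : a * (1 - η) ^ 2 = u - 2 * e := by
    rw [ha, hfa, he]
    simp only
    rw [div_mul_cancel₀ _ (by positivity)]
  have hue : 0 < u - 2 * e := by rw [← hae]; positivity
  have he1 : e < 1 / 8 := by linarith
  obtain ⟨b, hb⟩ : ∃ b, b = (u - 3 / 2 * e) / (1 - η) ^ 2 := ⟨_, rfl⟩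
  have hbe : b * (1 - η) ^ 2 = u - 3 / 2 * e := by rw [hb, div_mul_cancel₀ _ (by positivity)]
  have hab : a < b := by
    have h1 : a * (1 - η) ^ 2 < b * (1 - η) ^ 2 := by rw [hae, hbe]; linarith
    exact lt_of_mul_lt_mul_right h1 (by positivity)
  have hb0 : 0 < b := q1.trans hab
  obtain ⟨K, hK, hln⟩ := Pool.Agent.T6.H53.AL.le_ln
  obtain ⟨m₁, hm₁⟩ := eventually_atTop.1 (WF.interval_low q1.le q2 hab
    (S := fun n => Ioo (a * (n : ℝ) ^ 2) (b * (n : ℝ) ^ 2)) (fun n => Subset.rfl)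
    (show 0 < ε / 5 by linarith))
  obtain ⟨m₂, hm₂⟩ := eventually_atTop.1 (log_sq_ev (25 + K) (show 0 < 2 / 5 * ε by linarith))
  obtain ⟨m₃, hm₃⟩ := exists_nat_ge (4 / e + 512 / η)
  refine ⟨e / 2, by linarith, 2 * m₁ + m₂ + m₃ + 4, ?_⟩
  intro m hm n hn1 hn2
  have hmu := mu_pos
  have hm0 : (4 : ℝ) ≤ m := by exact_mod_cast (by omega : 4 ≤ m)
  have hm3 : (m₃ : ℝ) ≤ m := by exact_mod_cast (by omega : m₃ ≤ m)
  have b1 : 4 / e ≤ m := by
    have : 0 < 512 / η := by positivity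
    linarith
  have b2 : 512 / η ≤ m := by
    have : 0 < 4 / e := by positivity
    linarith
  rw [div_le_iff₀ he0] at b1
  rw [div_le_iff₀ hη0] at b2
  obtain ⟨l, hl⟩ : ∃ l, l = ⌊η * m⌋₊ := ⟨_, rfl⟩
  have l1 : (l : ℝ) ≤ η * m := by rw [hl]; exact Nat.floor_le (by positivity)
  have l2 : η * m < l + 1 := by rw [hl]; exact Nat.lt_floor_add_one _
  have l3 : (l : ℝ) ≤ m / 2 := by
    have : η * m ≤ 1 / 2 * m := mul_le_mul_of_nonneg_right hη2.le (by linarith)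
    linarith
  have l4 : 2 * l ≤ m := by
    have : (2 : ℝ) * l ≤ m := by linarith
    exact_mod_cast this
  obtain ⟨m', hm'⟩ : ∃ m', m' + l = m := ⟨m - l, by omega⟩
  have hm'r : (m' : ℝ) + l = m := by exact_mod_cast hm'
  have c1 : (1 - η) * m ≤ m' := by linarith
  have c2 : (m' : ℝ) ≤ (1 - η) * m + 1 := by linarith
  have hm'2 : 2 ≤ m' := by omega
  have hm'1 : m₁ ≤ m' := by omega
  have hin := hm₁ m' hm'1
  have hlog := hm₂ m (by omega)
  -- the window
  have hwin := win_ins (m := m') (l := l) (n := n) hm'2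
    (S := Ioo (a * (m' : ℝ) ^ 2) (b * (m' : ℝ) ^ 2)) (by
      rintro A ⟨hA1, hA2⟩
      have d1 : (u - 2 * e) * (m : ℝ) ^ 2 ≤ a * (m' : ℝ) ^ 2 := by
        have h1 : ((1 - η) * m) ^ 2 ≤ (m' : ℝ) ^ 2 := by
          apply pow_le_pow_left₀ (by positivity) c1
        have h2 := mul_le_mul_of_nonneg_left h1 q1.le
        rw [mul_pow, ← mul_assoc, hae] at h2
        exact h2
      have d2 : b * (m' : ℝ) ^ 2 ≤ (u - e) * (m : ℝ) ^ 2 := by
        have h0 : (m' : ℝ) ≤ (1 - η) * (m + 2) := by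
          have : 1 ≤ (1 - η) * 2 := by linarith
          linarith
        have h1 : (m' : ℝ) ^ 2 ≤ ((1 - η) * (m + 2)) ^ 2 :=
          pow_le_pow_left₀ (Nat.cast_nonneg _) h0 2
        have h2 := mul_le_mul_of_nonneg_left h1 hb0.le
        rw [mul_pow, ← mul_assoc, hbe] at h2
        refine h2.trans ?_
        have h3 : (u - 3 / 2 * e) * (4 * m + 4) ≤ 1 / 4 * (4 * m + 4) :=
          mul_le_mul_of_nonneg_right (by linarith) (by linarith)
        have h4 : 4 * (m : ℝ) ≤ m * e * m := mul_le_mul_of_nonneg_right b1 (by linarith)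
        have e5 : (u - 3 / 2 * e) * ((m : ℝ) + 2) ^ 2 =
            (u - 3 / 2 * e) * (m : ℝ) ^ 2 + (u - 3 / 2 * e) * (4 * m + 4) := by ring
        have e6 : (u - e) * (m : ℝ) ^ 2 = (u - 3 / 2 * e) * (m : ℝ) ^ 2 + 1 / 2 * (m * e * m) := by ring
        rw [e5, e6]
        linarith
      have d3 : (A : ℝ) < (u - e) * (m : ℝ) ^ 2 := hA2.trans_le d2
      have d4 : (u - 2 * e) * (m : ℝ) ^ 2 < A := d1.trans_lt hA1
      have hem : 0 < e * (m : ℝ) ^ 2 := by positivity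
      have d5 : (A : ℝ) < n := by linarith
      have d6 : A < n := by exact_mod_cast d5
      have d7 : ((n - A : ℕ) : ℝ) = n - A := Nat.cast_sub d6.le
      refine ⟨d6, ?_, ?_⟩
      · have h1 : ((Nat.sqrt (n - A) : ℕ) : ℝ) ^ 2 ≤ (η * m / 8) ^ 2 := by
          have h2 : ((Nat.sqrt (n - A) : ℕ) : ℝ) ^ 2 ≤ ((n - A : ℕ) : ℝ) := by
            have := Nat.sqrt_le' (n - A)
            exact_mod_cast this
          rw [d7] at h2
          have h3 : (η * m / 8) ^ 2 = 4 * (e * (m : ℝ) ^ 2) := by rw [he]; ring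
          rw [h3]
          linarith
        have h2 := abs_le_of_sq_le_sq' h1 (by positivity)
        have h3 : ((4 * Nat.sqrt (n - A) + 7 : ℕ) : ℝ) < l + 1 := by
          push_cast
          linarith [h2.2]
        have h4 : 4 * Nat.sqrt (n - A) + 7 < l + 1 := by exact_mod_cast h3
        omega
      · have h1 : (l : ℝ) ≤ ((n - A : ℕ) : ℝ) := by
          rw [d7]
          have h2 : η * m ≤ e / 2 * (m : ℝ) ^ 2 := by
            have h3 : e / 2 * (m : ℝ) ^ 2 = (m * η) * (η * m) / 512 := by rw [he]; ring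
            rw [h3]
            have h4 : 512 * (η * m) ≤ (m * η) * (η * m) := mul_le_mul_of_nonneg_right b2 (by positivity)
            linarith
          linarith
        exact_mod_cast h1)
  rw [hm'] at hwin
  obtain ⟨X, hX⟩ : ∃ X, X = (PQ (Ea n) m).ncard := ⟨_, rfl⟩
  rw [← hX] at hwin ⊢
  have hwin' : ((PQ (GC.In (Ioo (a * (m' : ℝ) ^ 2) (b * (m' : ℝ) ^ 2))) m').ncard : ℝ) ≤
      n * ((4 * m) ^ 3 * X) := by exact_mod_cast hwin
  rw [card_In hm'2] at hwin'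
  have hln' := hln m' hm'2
  have h4 := four_n (show 2 ≤ m by omega)
  obtain ⟨L, hL⟩ : ∃ L, L = Real.log m ^ 2 := ⟨_, rfl⟩
  rw [← hL] at h4 hlog
  have hn3 : (n : ℝ) ≤ (4 * m) ^ 2 := by
    refine hn2.trans ?_
    rw [mul_pow]
    apply mul_le_mul_of_nonneg_right _ (by positivity)
    linarith
  have h5 : (n : ℝ) * ((4 * m) ^ 3 * X) ≤ Real.exp (25 * L) * X := by
    rw [← mul_assoc]
    apply mul_le_mul_of_nonneg_right _ (Nat.cast_nonneg _)
    calc (n : ℝ) * (4 * m) ^ 3 ≤ (4 * m) ^ 2 * (4 * m) ^ 3 :=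
          mul_le_mul_of_nonneg_right hn3 (by positivity)
      _ = (4 * m) ^ 5 := by ring
      _ ≤ Real.exp (5 * L) ^ 5 := pow_le_pow_left₀ (by positivity) h4 5
      _ = _ := by
          rw [← Real.exp_nat_mul]
          congr 1
          push_cast
          ring
  have h6 : Real.exp (-((RR a + ε / 5) * m')) * (mu ^ (2 * m') * Real.exp (-(K * Real.log m' ^ 2))) ≤
      Real.exp (25 * L) * X :=
    (mul_le_mul hin hln' (by positivity) (WF.pr_nonneg _ _)).trans (hwin'.trans h5)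
  have h7 : Real.log m' ^ 2 ≤ L := by
    rw [hL]
    apply pow_le_pow_left₀ (Real.log_natCast_nonneg _)
    apply Real.log_le_log (by exact_mod_cast (by omega : 0 < m'))
    exact_mod_cast (by omega : m' ≤ m)
  have h8 : mu ^ (2 * m) = mu ^ (2 * m') * Real.exp (2 * l * Real.log mu) := by
    rw [← hm', mul_add, pow_add]
    congr 1
    rw [← Real.rpow_natCast, Real.rpow_def_of_pos hmu]
    congr 1
    push_cast
    ring
  have h9 : Real.exp (25 * L) * (Real.exp (-((RR u + ε) * m)) * mu ^ (2 * m)) ≤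
      Real.exp (25 * L) * X := by
    refine le_trans ?_ h6
    rw [h8]
    have e1 : Real.exp (25 * L) * (Real.exp (-((RR u + ε) * m)) *
        (mu ^ (2 * m') * Real.exp (2 * l * Real.log mu))) =
        mu ^ (2 * m') * Real.exp (25 * L + -((RR u + ε) * m) + 2 * l * Real.log mu) := by
      rw [Real.exp_add, Real.exp_add]
      ring
    have e2 : Real.exp (-((RR a + ε / 5) * m')) * (mu ^ (2 * m') *
        Real.exp (-(K * Real.log m' ^ 2))) =
        mu ^ (2 * m') * Real.exp (-((RR a + ε / 5) * m') + -(K * Real.log m' ^ 2)) := by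
      rw [Real.exp_add]
      ring
    rw [e1, e2]
    apply mul_le_mul_of_nonneg_left _ (by positivity)
    apply Real.exp_le_exp.2
    have hRa : 0 ≤ RR a := WF.RR_nonneg ⟨q1.le, q2.le⟩
    have f1 : (RR a + ε / 5) * m' ≤ (RR u + 2 / 5 * ε) * m := by
      have hmm : (m' : ℝ) ≤ m := by
        have : (0 : ℝ) ≤ l := Nat.cast_nonneg _
        linarith
      exact mul_le_mul (by linarith) hmm (Nat.cast_nonneg _) (by linarith)
    have f2 : 2 * l * Real.log mu ≤ ε / 5 * m := by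
      have h1 : 2 * l * Real.log mu ≤ 2 * (η * m) * Real.log mu :=
        mul_le_mul_of_nonneg_right (by linarith) hlm
      have h2 : 2 * η * Real.log mu * m ≤ ε / 5 * m :=
        mul_le_mul_of_nonneg_right q4.le (by linarith)
      linarith
    have f3 : K * Real.log m' ^ 2 ≤ K * L := mul_le_mul_of_nonneg_left h7 hK
    linarith
  exact le_of_mul_le_mul_left h9 (Real.exp_pos _)

end Pool.Agent.H26.FA
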