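import Pool.Agent.H26.FA.Ins

/-!
Polygons read from the leftmost of the lowest vertices; counting the insertions.
-/

set_option autoImplicit false

open Set

namespace Pool.Agent.H26.FA

open Pool.Agent.Y981.L2 H981 Pool.Agent.H26.GC

/-- the polygon read from `z` in the direction `s` -/
def rr {M : ℕ} (f : ZMod M → ℤ × ℤ) (z s : ZMod M) : ZMod M → ℤ × ℤ := fun k => f (z + s * k) - f z

theorem exists_root {M : ℕ} (hM : 4 ≤ M) {f : ZMod M → ℤ × ℤ} (hf : IsLoop M f) :
    ∃ z s : ZMod M, (s = 1 ∨ s = -1) ∧ f (z + s) = f z + (1, 0) ∧ ∀ k, (f z).2 ≤ (f k).2 := by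
  have : NeZero M := ⟨by omega⟩
  obtain ⟨z, hz⟩ := Finite.exists_min (fun k : ZMod M => toLex ((f k).2, (f k).1))
  have hy : ∀ k, (f z).2 ≤ (f k).2 ∧ ((f k).2 = (f z).2 → (f z).1 ≤ (f k).1) := by
    intro k
    have h1 := hz k
    rw [Prod.Lex.toLex_le_toLex] at h1
    rcases h1 with h2 | ⟨h2, h3⟩
    · exact ⟨h2.le, fun h4 => by omega⟩
    · exact ⟨h2.le, fun _ => h3⟩
  have hne : f (z + 1) ≠ f (z + -1) := by
    intro he
    have h1 := hf.2.1 he
    have h2 : (1 : ZMod M) = -1 := add_left_cancel h1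
    have h3 : ((2 : ℕ) : ZMod M) = 0 := by
      push_cast
      calc (2 : ZMod M) = 1 + 1 := by norm_num
        _ = 1 + -1 := by rw [← h2]
        _ = 0 := by ring
    rw [ZMod.natCast_eq_zero_iff] at h3
    have := Nat.le_of_dvd (by norm_num) h3
    omega
  have key : ∀ t : ZMod M, |(f t).1 - (f z).1| + |(f t).2 - (f z).2| = 1 →
      f t = f z + (1, 0) ∨ f t = f z + (0, 1) := by
    intro t ht
    obtain ⟨h1, h2⟩ := hy t
    rw [Prod.ext_iff, Prod.ext_iff]
    simp only [Prod.fst_add, Prod.snd_add]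
    have h3 := abs_nonneg ((f t).1 - (f z).1)
    have h4 := abs_nonneg ((f t).2 - (f z).2)
    have h5 : |(f t).2 - (f z).2| = (f t).2 - (f z).2 := abs_of_nonneg (by omega)
    rw [h5] at ht
    rcases abs_cases ((f t).1 - (f z).1) with ⟨h6, -⟩ | ⟨h6, -⟩ <;> rw [h6] at ht
    · by_cases h7 : (f t).2 = (f z).2
      · left; omega
      · right; omega
    · by_cases h7 : (f t).2 = (f z).2
      · have := h2 h7
        left; omega
      · right; omega
  have a1 := key (z + 1) (hf.2.2 z)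
  have a2 := key (z + -1) (by
    have h1 := hf.2.2 (z + -1)
    have e : z + -1 + 1 = z := by ring
    rw [e, abs_sub_comm, abs_sub_comm (f z).2] at h1
    exact h1)
  rcases a1 with h1 | h1
  · exact ⟨z, 1, Or.inl rfl, h1, fun k => (hy k).1⟩
  · rcases a2 with h2 | h2
    · exact ⟨z, -1, Or.inr rfl, h2, fun k => (hy k).1⟩
    · exact absurd (h1.trans h2.symm) hne

theorem s_sq {M : ℕ} {s : ZMod M} (hs : s = 1 ∨ s = -1) : s * s = 1 := by
  rcases hs with rfl | rfl <;> ring

theorem rr_loop {M : ℕ} {f : ZMod M → ℤ × ℤ} (hf : IsLoop M f) (z : ZMod M) {s : ZMod M}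
    (hs : s = 1 ∨ s = -1) : IsLoop M (rr f z s) := by
  refine ⟨?_, ?_, ?_⟩
  · unfold rr
    rw [mul_zero, add_zero, sub_self]
  · intro k l h
    unfold rr at h
    have h1 : f (z + s * k) = f (z + s * l) := sub_left_injective h
    have h2 := add_left_cancel (hf.2.1 h1)
    have h3 : s * (s * k) = s * (s * l) := by rw [h2]
    rw [← mul_assoc, ← mul_assoc, s_sq hs, one_mul, one_mul] at h3
    exact h3
  · intro k
    unfold rr
    simp only [Prod.fst_sub, Prod.snd_sub, sub_sub_sub_cancel_right]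
    rcases hs with rfl | rfl
    · have h1 := hf.2.2 (z + 1 * k)
      have e : z + 1 * k + 1 = z + 1 * (k + 1) := by ring
      rw [e] at h1
      exact h1
    · have h1 := hf.2.2 (z + -1 * (k + 1))
      have e : z + -1 * (k + 1) + 1 = z + -1 * k := by ring
      rw [e, abs_sub_comm, abs_sub_comm (f (z + -1 * k)).2] at h1
      exact h1

theorem rr_area {M : ℕ} {f : ZMod M → ℤ × ℤ} (hf : IsLoop M f) (z : ZMod M) {s : ZMod M}
    (hs : s = 1 ∨ s = -1) : area M (rr f z s) = area M f := by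
  have key : ∀ c : ℤ × ℤ, Encl M (rr f z s) c ↔ Encl M f (c + f z) := by
    intro c
    unfold Encl
    have h1 : Nat.card {k : ZMod M // Above M (rr f z s) c.1 c.2 k} =
        Nat.card {k : ZMod M // Above M f (c + f z).1 (c + f z).2 k} := by
      rcases hs with rfl | rfl
      · apply Nat.card_congr
        apply Equiv.subtypeEquiv (Equiv.addLeft z)
        intro k
        unfold Above rr
        have e1 : z + 1 * k = z + k := by ring
        have e2 : z + 1 * (k + 1) = z + k + 1 := by ring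
        rw [Equiv.coe_addLeft, e1, e2]
        simp only [Prod.fst_sub, Prod.snd_sub, Prod.fst_add, Prod.snd_add]
        omega
      · apply Nat.card_congr
        apply Equiv.subtypeEquiv (Equiv.subLeft (z - 1))
        intro k
        unfold Above rr
        rw [Equiv.subLeft_apply]
        obtain ⟨w, hw⟩ : ∃ w, w = z - 1 - k := ⟨_, rfl⟩
        have e1 : z + -1 * k = w + 1 := by rw [hw]; ring
        have e2 : z + -1 * (k + 1) = w := by rw [hw]; ring
        rw [e1, e2, ← hw]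
        simp only [Prod.fst_sub, Prod.snd_sub, Prod.fst_add, Prod.snd_add]
        have h2 := hf.2.2 w
        have h3 := abs_nonneg ((f (w + 1)).1 - (f w).1)
        have h4 := abs_nonneg ((f (w + 1)).2 - (f w).2)
        rcases abs_cases ((f (w + 1)).1 - (f w).1) with ⟨h5, h6⟩ | ⟨h5, h6⟩ <;>
          rcases abs_cases ((f (w + 1)).2 - (f w).2) with ⟨h7, h8⟩ | ⟨h7, h8⟩ <;>
            rw [h5, h7] at h2 <;> omega
    rw [h1]
  unfold area
  apply Nat.card_congr
  apply Equiv.subtypeEquiv (Equiv.addRight (f z))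
  intro c
  rw [Equiv.coe_addRight]
  exact key c

/-- area exactly `A` -/
def Ea (A : ℕ) : ∀ n : ℕ, (ZMod (2 * n) → ℤ × ℤ) → Prop := fun n f => area (2 * n) f = A

theorem PQ_finite (Q : ∀ n : ℕ, (ZMod (2 * n) → ℤ × ℤ) → Prop) {n : ℕ} (hn : 1 ≤ n) :
    (PQ Q n).Finite := (loops_finite hn).subset fun _ h => h.1

/-- **counting the insertions** -/
theorem count_ins {n h w A : ℕ} (hn : 2 ≤ n) (hh : 1 ≤ h) (hw : 1 ≤ w) :
    (PQ (Ea A) n).ncard ≤ 4 * n * (PQ (Ea (A + (w * h + 1))) (n + h + w)).ncard := by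
  classical
  have : NeZero (2 * n) := ⟨by omega⟩
  obtain ⟨B, hB⟩ : ∃ B : Set (ZMod (2 * n) → ℤ × ℤ), B = {F | IsLoop (2 * n) F ∧ F 1 = (1, 0) ∧
    (∀ k, 0 ≤ (F k).2) ∧ area (2 * n) F = A} := ⟨_, rfl⟩
  have hBfin : B.Finite := by
    rw [hB]
    exact (loops_finite (by omega : 1 ≤ n)).subset fun _ h => h.1
  have hM' : 2 * (n + h + w) = 2 * n + 2 * h + 2 * w := by ring
  have h1 : B.ncard ≤ (PQ (Ea (A + (w * h + 1))) (n + h + w)).ncard := by
    refine Set.ncard_le_ncard_of_injOn (fun F => nf (2 * (n + h + w)) h w F) ?_ ?_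
      (PQ_finite _ (by omega))
    · intro F hF
      rw [hB] at hF
      obtain ⟨f1, f2, f3, f4⟩ := hF
      refine ⟨nf_loop hM' (by omega) hh hw f1 f2 f3, ?_⟩
      have := nf_area hM' (by omega) hh hw f1 f2 f3
      rw [f4] at this
      exact this
    · intro F1 hF1 F2 hF2 he
      rw [hB] at hF1 hF2
      exact nf_inj hM' (by omega) hh hw hF1.1.1 hF2.1.1 hF1.2.1 hF2.2.1 he
  obtain ⟨dec, hdec⟩ : ∃ dec : (ZMod (2 * n) × Bool) × (ZMod (2 * n) → ℤ × ℤ) →
      (ZMod (2 * n) → ℤ × ℤ), dec = fun p k =>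
        p.2 ((if p.1.2 then 1 else -1) * (k - p.1.1)) - p.2 ((if p.1.2 then 1 else -1) * (0 - p.1.1)) :=
    ⟨_, rfl⟩
  obtain ⟨T, hT⟩ : ∃ T : Finset (ZMod (2 * n) → ℤ × ℤ), T =
    ((Finset.univ : Finset (ZMod (2 * n) × Bool)) ×ˢ hBfin.toFinset).image dec := ⟨_, rfl⟩
  have hsub : PQ (Ea A) n ⊆ (T : Set (ZMod (2 * n) → ℤ × ℤ)) := by
    rintro f ⟨hf, hA⟩
    obtain ⟨z, s, hs, h2, h3⟩ := exists_root (by omega) hf
    have hA' : area (2 * n) f = A := hA
    rw [Finset.mem_coe, hT, Finset.mem_image]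
    have hss := s_sq hs
    have hF : rr f z s ∈ B := by
      rw [hB]
      refine ⟨rr_loop hf z hs, ?_, ?_, ?_⟩
      · unfold rr
        rw [mul_one, h2]
        simp
      · intro k
        unfold rr
        have := h3 (z + s * k)
        simp only [Prod.snd_sub]
        omega
      · rw [rr_area hf z hs]
        exact hA'
    have hdecode : ∀ k, rr f z s (s * (k - z)) - rr f z s (s * (0 - z)) = f k := by
      intro k
      unfold rr
      rw [← mul_assoc, ← mul_assoc, hss, one_mul, one_mul, add_sub_cancel, add_sub_cancel, hf.1]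
      simp
    obtain ⟨b, hb⟩ : ∃ b : Bool, (if b then (1 : ZMod (2 * n)) else -1) = s := by
      rcases hs with rfl | rfl
      · exact ⟨true, rfl⟩
      · exact ⟨false, rfl⟩
    refine ⟨((z, b), rr f z s), ?_, ?_⟩
    · rw [Finset.mem_product]
      exact ⟨Finset.mem_univ _, hBfin.mem_toFinset.2 hF⟩
    · rw [hdec]
      funext k
      simp only
      rw [hb]
      exact hdecode k
  have h4 := Set.ncard_le_ncard hsub (Finset.finite_toSet _)
  rw [Set.ncard_coe_finset] at h4
  have h5 : T.card ≤ 4 * n * B.ncard := by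
    rw [hT]
    refine Finset.card_image_le.trans ?_
    rw [Finset.card_product, Finset.card_univ, Fintype.card_prod, ZMod.card, Fintype.card_bool,
      ← Set.ncard_eq_toFinset_card B hBfin]
    apply Nat.mul_le_mul_right
    omega
  exact h4.trans (h5.trans (Nat.mul_le_mul_left _ h1))

/-- every large enough increment of the area at the cost of its square root -/
theorem shape {b : ℕ} (hb : 4 ≤ b) : ∃ h w r : ℕ, 1 ≤ h ∧ 1 ≤ w ∧ 1 ≤ r ∧ w * h + 1 + (r * 1 + 1) = b ∧
    h + w + r + 1 ≤ 3 * Nat.sqrt b + 3 := by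
  obtain ⟨w, hw⟩ : ∃ w, w = Nat.sqrt (b - 3) := ⟨_, rfl⟩
  have h1 : w * w ≤ b - 3 := by rw [hw]; exact Nat.sqrt_le _
  have h2 : b - 3 ≤ w * w + w + w := by rw [hw]; exact Nat.sqrt_le_add _
  have hw1 : 1 ≤ w := by
    rw [hw, Nat.one_le_iff_ne_zero, ne_eq, Nat.sqrt_eq_zero]
    omega
  have h3 := Nat.div_add_mod (b - 3) w
  have h4 := Nat.mod_lt (b - 3) (by omega : 0 < w)
  have h5 : w ≤ (b - 3) / w := by
    rw [Nat.le_div_iff_mul_le (by omega)]
    exact h1
  have h6 : (b - 3) / w ≤ w + 2 := by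
    rw [← Nat.lt_succ_iff, Nat.div_lt_iff_lt_mul (by omega)]
    have : (w + 2).succ * w = w * w + w + w + w := by
      rw [Nat.succ_eq_add_one]
      ring
    rw [this]
    omega
  have h7 : w ≤ Nat.sqrt b := by
    rw [hw]
    exact Nat.sqrt_le_sqrt (by omega)
  refine ⟨(b - 3) / w, w, (b - 3) % w + 1, by omega, hw1, by omega, by omega, by omega⟩

/-- **every large enough increment of the area** -/
theorem count_two {b : ℕ} (hb : 4 ≤ b) : ∃ l : ℕ, l ≤ 3 * Nat.sqrt b + 3 ∧ ∀ n A : ℕ, 2 ≤ n →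
    (PQ (Ea A) n).ncard ≤ (4 * (n + l)) ^ 2 * (PQ (Ea (A + b)) (n + l)).ncard := by
  obtain ⟨h, w, r, hh, hw, hr, he, hl⟩ := shape hb
  refine ⟨h + w + r + 1, hl, ?_⟩
  intro n A hn
  have h1 := count_ins (A := A) hn hh hw
  have h2 := count_ins (n := n + h + w) (A := A + (w * h + 1)) (h := 1) (w := r) (by omega) le_rfl hr
  have e1 : A + (w * h + 1) + (r * 1 + 1) = A + b := by omega
  have e2 : n + h + w + 1 + r = n + (h + w + r + 1) := by ring
  rw [e1, e2] at h2
  refine h1.trans ((Nat.mul_le_mul_left _ h2).trans ?_)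
  rw [← mul_assoc, sq]
  apply Nat.mul_le_mul_right
  apply Nat.mul_le_mul <;> omega

end Pool.Agent.H26.FA
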