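import Pool.Agent.H26.FA.Ldp
import Pool.Agent.H26.WS.Cond

/-!
The shape of the polygons with given perimeter and given area.
-/

set_option autoImplicit false

open MeasureTheory Set Filter Topology Metric
open scoped ENNReal Pointwise

namespace Pool.Agent.H26.FA

open Pool.Agent.Y981.L2 H981 Pool.Agent.H26.WS Pool.Agent.H26.UN Pool.Agent.H26.GC
open Pool.Agent.H26.WF (Kc V g rho pr RR)

/-- **the shape of the polygons with given perimeter and area** -/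
theorem shape_exact {u E δ : ℝ} (hu : 0 < u) (hu4 : u < 1 / 4) (hE : Opt u E) (hδ : 0 < δ) :
    ∃ (c ε : ℝ) (m₀ : ℕ), 0 < c ∧ 0 < ε ∧ 2 ≤ m₀ ∧ ∀ m : ℕ, m₀ ≤ m → ∀ n : ℕ,
      |(n : ℝ) / (m : ℝ) ^ 2 - u| ≤ ε → 0 < ((PQ (Ea n) m).ncard : ℝ) ∧
      ({f : ZMod (2 * m) → ℤ × ℤ | IsLoop (2 * m) f ∧ area (2 * m) f = n ∧
        ¬Good m (WT u E) δ f}.ncard : ℝ) ≤ Real.exp (-(c * m)) * ((PQ (Ea n) m).ncard : ℝ) := by
  obtain ⟨η, hη, habs⟩ := shape_abs hu hE hδ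
  obtain ⟨δ2, hδ2, m₂, hlow⟩ := pmn_low hu hu4 (show 0 < η / 2 by linarith)
  obtain ⟨K, hK, hln⟩ := Y981.L2.ln_le
  obtain ⟨m₁, hm₁⟩ := eventually_atTop.1 (habs.and (log_sq_ev K (show 0 < η / 4 by linarith)))
  refine ⟨η / 4, min δ2 η, m₁ + m₂ + 2, by linarith, lt_min hδ2 hη, by omega, ?_⟩
  intro m hm n hn
  obtain ⟨h1, h2⟩ := hm₁ m (by omega)
  have hm0 : (0 : ℝ) < m := by exact_mod_cast (by omega : 0 < m)
  have hsq : 0 < (m : ℝ) ^ 2 := by positivity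
  rw [abs_le, le_sub_iff_add_le, sub_le_iff_le_add, le_div_iff₀ hsq, div_le_iff₀ hsq] at hn
  obtain ⟨a1, a2⟩ := hn
  have b1 : (u - η) * (m : ℝ) ^ 2 ≤ n :=
    (mul_le_mul_of_nonneg_right (by linarith [min_le_right δ2 η]) hsq.le).trans a1
  have b2 : (u - δ2) * (m : ℝ) ^ 2 ≤ n :=
    (mul_le_mul_of_nonneg_right (by linarith [min_le_left δ2 η]) hsq.le).trans a1
  have b3 : (n : ℝ) ≤ (u + δ2) * (m : ℝ) ^ 2 :=
    a2.trans (mul_le_mul_of_nonneg_right (by linarith [min_le_left δ2 η]) hsq.le)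
  have c1 := hlow m (by omega) n b2 b3
  have hmu := mu_pos
  have hX : 0 < ((PQ (Ea n) m).ncard : ℝ) := lt_of_lt_of_le (by positivity) c1
  refine ⟨hX, ?_⟩
  have c2 : ({f : ZMod (2 * m) → ℤ × ℤ | IsLoop (2 * m) f ∧ area (2 * m) f = n ∧
      ¬Good m (WT u E) δ f}.ncard : ℝ) ≤ ({f : ZMod (2 * m) → ℤ × ℤ | H981.IsLoop (2 * m) f ∧
        (u - η) * (m : ℝ) ^ 2 ≤ area (2 * m) f ∧ ¬Good m (WT u E) δ f}.ncard : ℝ) := by
    have := Set.ncard_le_ncard (s := {f : ZMod (2 * m) → ℤ × ℤ | IsLoop (2 * m) f ∧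
      area (2 * m) f = n ∧ ¬Good m (WT u E) δ f}) (t := {f : ZMod (2 * m) → ℤ × ℤ |
        H981.IsLoop (2 * m) f ∧ (u - η) * (m : ℝ) ^ 2 ≤ area (2 * m) f ∧ ¬Good m (WT u E) δ f})
      (by
        rintro f ⟨h5, h6, h7⟩
        refine ⟨h5, ?_, h7⟩
        rw [h6]
        exact b1) ((loops_finite (show 1 ≤ m by omega)).subset fun f hf => hf.1)
    exact_mod_cast this
  have c3 := (hln m (by omega)).2
  calc ({f : ZMod (2 * m) → ℤ × ℤ | IsLoop (2 * m) f ∧ area (2 * m) f = n ∧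
      ¬Good m (WT u E) δ f}.ncard : ℝ) ≤ Real.exp (-(RR u + η) * m) * ln m := c2.trans h1
    _ ≤ Real.exp (-(RR u + η) * m) * (mu ^ (2 * m) * TH795.EP2.q m K) :=
        mul_le_mul_of_nonneg_left c3 (Real.exp_pos _).le
    _ = Real.exp (-(RR u + η) * m + K * Real.log m ^ 2) * mu ^ (2 * m) := by
        unfold TH795.EP2.q
        rw [Real.exp_add]
        ring
    _ ≤ Real.exp (-(η / 4 * m) + -((RR u + η / 2) * m)) * mu ^ (2 * m) := by
        apply mul_le_mul_of_nonneg_right _ (by positivity)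
        apply Real.exp_le_exp.2
        linarith
    _ = Real.exp (-(η / 4 * m)) * (Real.exp (-((RR u + η / 2) * m)) * mu ^ (2 * m)) := by
        rw [Real.exp_add]
        ring
    _ ≤ _ := mul_le_mul_of_nonneg_left c1 (Real.exp_pos _).le

end Pool.Agent.H26.FA
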