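import Pool.Agent.H26.FA.Var

/-!
The slope of `g`; the critical value of the fugacity of the polygons.
-/

set_option autoImplicit false

open MeasureTheory Set Filter Topology Metric
open scoped ENNReal Pointwise

namespace Pool.Agent.H26.FA

open Pool.Agent.TH795.EP2 (q)
open Pool.Agent.Y981.L2 H981 Pool.Agent.H26.WS Pool.Agent.H26.UN Pool.Agent.H26.GC
open Pool.Agent.H26.WF (Kc V g rho pr RR)

theorem g_ratio {A : ℝ} (hA : 1 ≤ A) : ∃ E : ℝ, 0 < E ∧ 2 * A * E < g E := by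
  by_contra hcon
  push Not at hcon
  obtain ⟨u, hu⟩ : ∃ u, u = (1 / (2 * A)) ^ 2 := ⟨_, rfl⟩
  have hA2 : 1 / (2 * A) ≤ 1 / 2 := by
    apply one_div_le_one_div_of_le (by norm_num)
    linarith
  have hu0 : 0 < u := by rw [hu]; positivity
  have hu4 : u ≤ 1 / 4 := by
    have := pow_le_pow_left₀ (by positivity) hA2 2
    rw [hu]
    norm_num at this ⊢
    exact this
  have h1 := WF.RR_strict (show (0 : ℝ) ∈ Icc (0 : ℝ) (1 / 4) by norm_num) ⟨hu0.le, hu4⟩ hu0
  rw [WF.RR_zero, WF.RR_eq hu0.le, hu, Real.sqrt_sq (by positivity)] at h1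
  have h2 : rho (1 / (2 * A)) ≤ 0 := by
    apply WF.rho_le
    intro E hE
    have h3 := hcon E hE
    have h4 : 1 / (2 * A) * g E ≤ E := by
      rw [div_mul_eq_mul_div, one_mul, div_le_iff₀ (by positivity)]
      linarith
    linarith
  linarith

/-- the slope of `g` near the critical point -/
theorem slope_big (A : ℝ) : ∃ E₀ : ℝ, 0 < E₀ ∧ ∀ E : ℝ, 0 < E → E < E₀ → ∀ D : ℝ,
    HasDerivAt g D E → A ≤ D := by
  obtain ⟨F, hF, hgF⟩ := g_ratio (le_max_right A 1)
  have hgF0 := g_pos hF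
  have h1 := WF.g_small (show 0 < g F / 2 by linarith)
  rw [eventually_nhdsWithin_iff, Metric.eventually_nhds_iff] at h1
  obtain ⟨ρ, hρ, h2⟩ := h1
  refine ⟨min ρ F, lt_min hρ hF, ?_⟩
  intro E hE hEm D hD
  have hEρ : E < ρ := lt_of_lt_of_le hEm (min_le_left _ _)
  have hEF : E < F := lt_of_lt_of_le hEm (min_le_right _ _)
  have h3 := h2 (y := E) (by rw [Real.dist_eq, sub_zero, abs_of_pos hE]; exact hEρ) hE
  have h4 := WF.g_concave.slope_le_of_hasDerivAt (mem_Ioi.2 hE) (mem_Ioi.2 hF) hEF hD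
  rw [slope_def_field] at h4
  refine le_trans ?_ h4
  rw [le_div_iff₀ (by linarith)]
  have h5 : max A 1 * (F - E) ≤ max A 1 * F := by
    apply mul_le_mul_of_nonneg_left (by linarith)
    have := le_max_right A 1
    linarith
  have h6 : A * (F - E) ≤ max A 1 * (F - E) :=
    mul_le_mul_of_nonneg_right (le_max_left _ _) (by linarith)
  linarith

/-- the half-perimeter is at least twice the square root of the area -/
theorem Ms_ge {E : ℝ} (hE : 0 < E) {n : ℕ} (hn : 0 < n) :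
    2 * √(n : ℝ) * GC.Zs (zz E) (Ea n) ≤ Ms E n := by
  unfold GC.Zs Ms
  rw [← tsum_mul_left]
  apply ((sum_Ea hE hn).mul_left _).tsum_le_tsum _ (Ms_sum hE hn)
  intro k
  rcases (PQ (Ea n) (k + 2)).eq_empty_or_nonempty with h | ⟨f, hf1, hf2⟩
  · have : GC.tm (zz E) (Ea n) k = 0 := by
      unfold GC.tm
      rw [h]
      simp
    rw [this]
    simp
  · apply mul_le_mul_of_nonneg_right _ (GC.tm_nonneg (zz_pos E) _ k)
    have h1 := WF.area_quarter (by omega : 1 ≤ k + 2) hf1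
    have h2 : area (2 * (k + 2)) f = n := hf2
    rw [h2] at h1
    have h3 : √(n : ℝ) ≤ ((k + 2 : ℕ) : ℝ) / 2 := by
      rw [Real.sqrt_le_left (by positivity)]
      linarith
    linarith

theorem deriv_ge {E D : ℝ} (hE : 0 < E) (hD : HasDerivAt g D E) : 2 ≤ D := by
  apply ge_of_tendsto (mean_lim hE hD)
  filter_upwards [exact_low hE one_pos, eventually_ge_atTop 1] with n h1 hn1
  have hn0 : (0 : ℝ) < n := by exact_mod_cast hn1
  have hsn : 0 < √(n : ℝ) := Real.sqrt_pos.2 hn0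
  have hZ : 0 < GC.Zs (zz E) (Ea n) := (Real.exp_pos _).trans_le h1
  rw [le_div_iff₀ hsn, le_div_iff₀ hZ]
  exact Ms_ge hE (by omega)

/-! ### the critical point -/

/-- all polygons -/
def Ap : ∀ n : ℕ, (ZMod (2 * n) → ℤ × ℤ) → Prop := fun _ _ => True

theorem card_Ap (n : ℕ) : ((PQ Ap n).ncard : ℝ) = (ln n : ℝ) := by
  unfold PQ Ap
  simp only [and_true]
  rfl

theorem below {E : ℝ} (hE : 0 < E) : Summable (GC.tm (zz E) Ap) := by
  obtain ⟨K, hK, hln⟩ := Y981.L2.ln_le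
  obtain ⟨C, hC, h⟩ := GC.Zs_le hK one_pos
  refine (h _ (zz_pos E) (by rw [zz_log]; exact hE) 0 Ap ?_).1
  intro n hn
  obtain ⟨-, k2⟩ := hln n hn
  rw [card_Ap]
  refine k2.trans (le_of_eq ?_)
  unfold TH795.EP2.q
  rw [mul_comm]
  congr 2
  ring

theorem above {E : ℝ} (hE : E < 0) : ¬Summable (GC.tm (zz E) Ap) := by
  intro hs
  obtain ⟨K, hK, hln⟩ := Pool.Agent.T6.H53.AL.le_ln
  obtain ⟨C, hC, hkl⟩ := GC.klog (K := K + 5) (by positivity) (show 0 < -E by linarith)
  have h1 := hs.tendsto_atTop_zero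
  have h2 : ∀ k, Real.exp (-(C * Lm 1 ^ 2)) ≤ GC.tm (zz E) Ap k := by
    intro k
    obtain ⟨n, hn⟩ : ∃ n, n = k + 2 := ⟨_, rfl⟩
    have hn2 : 2 ≤ n := by omega
    have hn0 : (0 : ℝ) < n := by
      have : 0 < n := by omega
      exact_mod_cast this
    unfold GC.tm
    rw [← hn, card_Ap, le_div_iff₀ (by positivity), zz_pow]
    have a1 := hln n hn2
    have a2 := GC.four_n hn2
    have a3 := hkl 1 one_pos n
    have e1 : mu ^ (2 * n) = Real.exp (((2 * n : ℕ) : ℝ) * Real.log mu) := by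
      rw [Real.exp_nat_mul, Real.exp_log mu_pos]
    rw [e1, ← Real.exp_add] at a1
    refine (mul_le_mul_of_nonneg_left a2 (Real.exp_pos _).le).trans ?_
    refine le_trans ?_ (mul_le_mul_of_nonneg_left a1 (Real.exp_pos _).le)
    rw [← Real.exp_add, ← Real.exp_add]
    apply Real.exp_le_exp.2
    have a4 : (n : ℝ) * E ≤ 0 := mul_nonpos_of_nonneg_of_nonpos hn0.le hE.le
    push_cast
    linarith
  have h3 := ge_of_tendsto h1 (Eventually.of_forall h2)
  exact absurd h3 (not_le.2 (Real.exp_pos _))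

end Pool.Agent.H26.FA
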