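import Pool.Agent.H26.FA.Fixed

/-!
Polygons with a given area: the variance of the perimeter, integrated over the fugacity.
-/

set_option autoImplicit false

open MeasureTheory Set Filter Topology Metric
open scoped ENNReal Pointwise

namespace Pool.Agent.H26.FA

open Pool.Agent.Y981.L2 H981 Pool.Agent.H26.WS Pool.Agent.H26.UN Pool.Agent.H26.GC
open Pool.Agent.H26.WF (Kc V g rho pr RR)

/-- the term of the moments of the perimeter -/
noncomputable def tj (n j k : ℕ) (E : ℝ) : ℝ := (2 * ((k + 2 : ℕ) : ℝ)) ^ j * GC.tm (zz E) (Ea n) k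

/-- the moments of the perimeter -/
noncomputable def Tj (n j : ℕ) (E : ℝ) : ℝ := ∑' k : ℕ, tj n j k E

theorem tj_nonneg (n j k : ℕ) (E : ℝ) : 0 ≤ tj n j k E :=
  mul_nonneg (by positivity) (GC.tm_nonneg (zz_pos E) _ k)

theorem tj_anti (n j k : ℕ) {E F : ℝ} (h : E ≤ F) : tj n j k F ≤ tj n j k E := by
  unfold tj
  apply mul_le_mul_of_nonneg_left _ (by positivity)
  have e : E = F - (F - E) := by ring
  rw [e, tm_exp]
  have h1 : 1 ≤ Real.exp (2 * (F - E) * ((k + 2 : ℕ) : ℝ)) := by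
    apply Real.one_le_exp
    have : 0 ≤ F - E := by linarith
    positivity
  have h2 := GC.tm_nonneg (zz_pos F) (Ea n) k
  have h3 := mul_le_mul_of_nonneg_right h1 h2
  linarith

theorem tj_sum {n : ℕ} (hn : 0 < n) (j : ℕ) {E : ℝ} (hE : 0 < E) : Summable (fun k => tj n j k E) := by
  have h1 := (sum_Ea (show 0 < E - E / 2 by linarith) hn).mul_left ((j.factorial : ℝ) * (2 / E) ^ j)
  refine Summable.of_nonneg_of_le (fun k => tj_nonneg n j k E) (fun k => ?_) h1
  unfold tj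
  rw [tm_exp, ← mul_assoc]
  apply mul_le_mul_of_nonneg_right _ (GC.tm_nonneg (zz_pos E) _ k)
  obtain ⟨x, hx⟩ : ∃ x, x = ((k + 2 : ℕ) : ℝ) := ⟨_, rfl⟩
  have hx0 : 0 ≤ x := by rw [hx]; positivity
  rw [← hx]
  have h2 := Real.pow_div_factorial_le_exp (x := 2 * (E / 2) * x) (by positivity) j
  rw [div_le_iff₀ (by positivity)] at h2
  have e : (2 * x) ^ j = (2 / E) ^ j * (2 * (E / 2) * x) ^ j := by
    rw [← mul_pow]
    congr 1
    field_simp
  rw [e]
  have h3 := mul_le_mul_of_nonneg_left h2 (show 0 ≤ (2 / E) ^ j by positivity)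
  linarith

theorem tj_deriv (n j k : ℕ) (E : ℝ) : HasDerivAt (tj n j k) (-tj n (j + 1) k E) E := by
  have h1 : HasDerivAt (fun E : ℝ => -(((2 * (k + 2) : ℕ) : ℝ) * (E + Real.log mu)))
      (-(((2 * (k + 2) : ℕ) : ℝ) * 1)) E :=
    (((hasDerivAt_id E).add_const (Real.log mu)).const_mul _).neg
  have h2 := ((h1.exp.mul_const ((PQ (Ea n) (k + 2)).ncard : ℝ)).div_const
    (4 * ((k + 2 : ℕ) : ℝ))).const_mul ((2 * ((k + 2 : ℕ) : ℝ)) ^ j)
  have e : tj n j k = fun E => (2 * ((k + 2 : ℕ) : ℝ)) ^ j *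
      (Real.exp (-(((2 * (k + 2) : ℕ) : ℝ) * (E + Real.log mu))) *
        ((PQ (Ea n) (k + 2)).ncard : ℝ) / (4 * ((k + 2 : ℕ) : ℝ))) := by
    funext F
    unfold tj GC.tm
    rw [zz_pow]
  have e2 : tj n (j + 1) k E = (2 * ((k + 2 : ℕ) : ℝ)) ^ (j + 1) *
      (Real.exp (-(((2 * (k + 2) : ℕ) : ℝ) * (E + Real.log mu))) *
        ((PQ (Ea n) (k + 2)).ncard : ℝ) / (4 * ((k + 2 : ℕ) : ℝ))) := by
    unfold tj GC.tm
    rw [zz_pow]
  rw [e]
  refine h2.congr_deriv ?_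
  rw [e2]
  push_cast
  ring

theorem Tj_deriv {n : ℕ} (hn : 0 < n) (j : ℕ) {E : ℝ} (hE : 0 < E) :
    HasDerivAt (Tj n j) (-Tj n (j + 1) E) E := by
  have h := hasDerivAt_tsum_of_isPreconnected (g := fun k => tj n j k)
    (g' := fun k E => -tj n (j + 1) k E) (tj_sum hn (j + 1) (show 0 < E / 2 by linarith))
    (isOpen_Ioi (a := E / 2)) isPreconnected_Ioi (fun k y _ => tj_deriv n j k y)
    (fun k y hy => by
      rw [norm_neg, Real.norm_eq_abs, abs_of_nonneg (tj_nonneg n (j + 1) k y)]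
      exact tj_anti n (j + 1) k (le_of_lt hy))
    (show E ∈ Ioi (E / 2) by rw [mem_Ioi]; linarith) (tj_sum hn j hE)
    (show E ∈ Ioi (E / 2) by rw [mem_Ioi]; linarith)
  rw [tsum_neg] at h
  exact h

theorem Tj_zero (n : ℕ) (E : ℝ) : Tj n 0 E = GC.Zs (zz E) (Ea n) := by
  unfold Tj GC.Zs tj
  simp

theorem Tj_one (n : ℕ) (E : ℝ) : Tj n 1 E = 2 * Ms E n := by
  unfold Tj Ms tj
  rw [← tsum_mul_left]
  apply tsum_congr
  intro k
  ring

/-- the mean half-perimeter -/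
noncomputable def me (n : ℕ) (E : ℝ) : ℝ := Tj n 1 E / (2 * Tj n 0 E)

/-- the variance of the half-perimeter -/
noncomputable def va (n : ℕ) (E : ℝ) : ℝ := Tj n 2 E / (4 * Tj n 0 E) - me n E ^ 2

theorem Z_pos_all {n : ℕ} (hn : 0 < n) {E F : ℝ} (hF : 0 < F)
    (h : 0 < GC.Zs (zz E) (Ea n)) : 0 < GC.Zs (zz F) (Ea n) := by
  obtain ⟨k, hk⟩ : ∃ k, GC.tm (zz E) (Ea n) k ≠ 0 := by
    by_contra hcon
    push Not at hcon
    have : GC.Zs (zz E) (Ea n) = 0 := by
      unfold GC.Zs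
      rw [tsum_congr hcon, tsum_zero]
    linarith
  have h1 : 0 < GC.tm (zz E) (Ea n) k := lt_of_le_of_ne (GC.tm_nonneg (zz_pos E) _ k) hk.symm
  have h2 : 0 < GC.tm (zz F) (Ea n) k := by
    have e : F = E - (E - F) := by ring
    rw [e, tm_exp]
    exact mul_pos (Real.exp_pos _) h1
  exact h2.trans_le ((sum_Ea hF hn).le_tsum k (fun j _ => GC.tm_nonneg (zz_pos F) _ j))

theorem me_deriv {n : ℕ} (hn : 0 < n) {E : ℝ} (hE : 0 < E) (hZ : 0 < Tj n 0 E) :
    HasDerivAt (me n) (-(2 * va n E)) E := by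
  have h1 := Tj_deriv hn 1 hE
  have h0 := (Tj_deriv hn 0 hE).const_mul 2
  have h2 := h1.div h0 (by positivity)
  have e : me n = fun E => Tj n 1 E / (2 * Tj n 0 E) := rfl
  rw [e]
  refine h2.congr_deriv ?_
  unfold va me
  norm_num
  field_simp
  ring

theorem va_cont {n : ℕ} (hn : 0 < n) {E : ℝ} (hE : 0 < E) (hZ : 0 < Tj n 0 E) :
    ContinuousAt (va n) E := by
  have h0 := (Tj_deriv hn 0 hE).continuousAt
  have h1 := (Tj_deriv hn 1 hE).continuousAt
  have h2 := (Tj_deriv hn 2 hE).continuousAt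
  unfold va me
  apply ContinuousAt.sub
  · exact h2.div (h0.const_mul 4) (by positivity)
  · exact (h1.div (h0.const_mul 2) (by positivity)).pow 2

/-- **the integrated variance** -/
theorem int_var {n : ℕ} (hn : 0 < n) {E F : ℝ} (hE : 0 < E) (hEF : E ≤ F)
    (hZ : 0 < GC.Zs (zz E) (Ea n)) :
    ∫ y in E..F, va n y = (me n E - me n F) / 2 := by
  have hpos : ∀ y ∈ uIcc E F, 0 < y ∧ 0 < Tj n 0 y := by
    intro y hy
    rw [uIcc_of_le hEF] at hy
    have hy0 : 0 < y := lt_of_lt_of_le hE hy.1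
    refine ⟨hy0, ?_⟩
    rw [Tj_zero]
    exact Z_pos_all hn hy0 hZ
  have h := intervalIntegral.integral_eq_sub_of_hasDerivAt (a := E) (b := F)
    (f := fun y => -(1 / 2) * me n y) (f' := va n) (fun y hy => by
      obtain ⟨h1, h2⟩ := hpos y hy
      have h3 := (me_deriv hn h1 h2).const_mul (-(1 / 2))
      exact h3.congr_deriv (by ring)) (by
      apply ContinuousOn.intervalIntegrable
      intro y hy
      obtain ⟨h1, h2⟩ := hpos y hy
      exact (va_cont hn h1 h2).continuousWithinAt)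
  rw [h]
  ring

theorem me_eq (n : ℕ) (E : ℝ) : me n E = Ms E n / GC.Zs (zz E) (Ea n) := by
  unfold me
  rw [Tj_zero, Tj_one, mul_div_mul_left _ _ two_ne_zero]

/-- **the integrated variance is of the order `√n`** -/
theorem var_lim {E F D D' : ℝ} (hE : 0 < E) (hEF : E ≤ F) (hD : HasDerivAt g D E)
    (hD' : HasDerivAt g D' F) :
    Tendsto (fun n : ℕ => (∫ y in E..F, va n y) / √(n : ℝ)) atTop (𝓝 ((D - D') / 2)) := by
  have h1 := mean_lim hE hD
  have h2 := mean_lim (lt_of_lt_of_le hE hEF) hD'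
  have h3 := (h1.sub h2).div_const 2
  refine h3.congr' ?_
  filter_upwards [exact_low hE one_pos, eventually_ge_atTop 1] with n h4 hn1
  have hZ : 0 < GC.Zs (zz E) (Ea n) := (Real.exp_pos _).trans_le h4
  rw [int_var (by omega) hE hEF hZ, me_eq, me_eq]
  ring

end Pool.Agent.H26.FA
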